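import Pool.Agent.Lib.MP_eee7a8_ag.TB.Iface2

/-!
# TAGBR, PP: supports of products of Laurent polynomials with coefficients in `ℕ`
-/

open Matrix

namespace Pool.Agent.Lib.MP_eee7a8_ag.TB.C4

variable {ι : Type}

theorem supp_mul {x y : LP ι} {m : ι → ℤ} (h : m ∈ (x * y).coeff.support) :
    ∃ m₁ ∈ x.coeff.support, ∃ m₂ ∈ y.coeff.support, m₁ + m₂ = m := by
  classical
  have := AddMonoidAlgebra.support_coeff_mul_subset x y h
  rw [Finset.mem_add] at this
  obtain ⟨a, ha, b, hb, hab⟩ := this
  exact ⟨a, ha, b, hb, hab⟩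

theorem supp_prod : ∀ (l : List (LP ι)) (m : ι → ℤ), m ∈ l.prod.coeff.support →
    ∃ ms : List (ι → ℤ), List.Forall₂ (fun m x => m ∈ x.coeff.support) ms l ∧ ms.sum = m
  | [], m, h => by
    rw [List.prod_nil, AddMonoidAlgebra.one_def, AddMonoidAlgebra.coeff_single] at h
    classical
    have := Finsupp.support_single_subset h
    rw [Finset.mem_singleton] at this
    exact ⟨[], List.Forall₂.nil, by rw [this]; rfl⟩
  | x :: l, m, h => by
    rw [List.prod_cons] at h
    obtain ⟨m₁, h1, m₂, h2, h12⟩ := supp_mul h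
    obtain ⟨ms, h3, h4⟩ := supp_prod l m₂ h2
    exact ⟨m₁ :: ms, List.Forall₂.cons h1 h3, by rw [List.sum_cons, h4, h12]⟩

theorem coeff_mul_unique {x y : LP ι} {a b : ι → ℤ} (ha : a ∈ x.coeff.support)
    (hb : b ∈ y.coeff.support)
    (h : ∀ m₁ ∈ x.coeff.support, ∀ m₂ ∈ y.coeff.support, m₁ + m₂ = a + b → m₁ = a ∧ m₂ = b) :
    (x * y).coeff (a + b) = x.coeff a * y.coeff b := by
  classical
  rw [AddMonoidAlgebra.coeff_mul, Finsupp.sum, Finset.sum_eq_single a, Finsupp.sum,
    Finset.sum_eq_single b]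
  · rw [if_pos rfl]
  · intro c hc hcb
    rw [if_neg]
    intro h0
    exact hcb (h a ha c hc h0).2
  · intro hb'
    exact absurd hb hb'
  · intro c hc hca
    rw [Finsupp.sum]
    refine Finset.sum_eq_zero fun d hd => ?_
    rw [if_neg]
    intro h0
    exact hca (h c hc d hd h0).1
  · intro ha'
    exact absurd ha ha'

theorem coeff_prod_unique : ∀ (l : List (LP ι)) (as : List (ι → ℤ)),
    List.Forall₂ (fun m x => m ∈ x.coeff.support ∧ x.coeff m = 1) as l →
    (∀ ms : List (ι → ℤ), List.Forall₂ (fun m x => m ∈ x.coeff.support) ms l →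
      ms.sum = as.sum → ms = as) →
    l.prod.coeff as.sum = 1
  | [], as, h1, _ => by
    cases h1
    rw [List.prod_nil, AddMonoidAlgebra.one_def, AddMonoidAlgebra.coeff_single]
    simp
  | x :: l, as, h1, h2 => by
    cases h1 with
    | @cons a _ as' _ ha has =>
      have has' : List.Forall₂ (fun m (x : LP ι) => m ∈ x.coeff.support) as' l :=
        has.imp fun _ _ h => h.1
      have ih := coeff_prod_unique l as' has (by
        intro ms h3 h4
        have := h2 (a :: ms) (List.Forall₂.cons ha.1 h3) (by rw [List.sum_cons, List.sum_cons, h4])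
        exact (List.cons.inj this).2)
      rw [List.prod_cons, List.sum_cons, coeff_mul_unique ha.1]
      · rw [ha.2, ih]
      · rw [Finsupp.mem_support_iff, ih]; norm_num
      · intro m₁ hm1 m₂ hm2 h12
        obtain ⟨ms, h3, h4⟩ := supp_prod l m₂ hm2
        have := h2 (m₁ :: ms) (List.Forall₂.cons hm1 h3) (by
          rw [List.sum_cons, List.sum_cons, h4, h12])
        obtain ⟨h5, h6⟩ := List.cons.inj this
        exact ⟨h5, by rw [← h4, h6]⟩

theorem coeff_single_mul {x : LP ι} (a b : ι → ℤ) :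
    (AddMonoidAlgebra.single a 1 * x).coeff (a + b) = x.coeff b := by
  rw [AddMonoidAlgebra.coeff_single_mul_eq_mul_coeff b (by
    intro m' _
    exact ⟨fun h => add_left_cancel h, fun h => by rw [h]⟩), one_mul]

theorem single_prod (l : List (ι → ℤ)) :
    (l.map (fun m => (AddMonoidAlgebra.single m 1 : LP ι))).prod =
      AddMonoidAlgebra.single l.sum 1 := by
  induction l with
  | nil => rfl
  | cons a l ih =>
    rw [List.map_cons, List.prod_cons, ih, AddMonoidAlgebra.single_mul_single, one_mul,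
      List.sum_cons]

end Pool.Agent.Lib.MP_eee7a8_ag.TB.C4
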