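import Pool.Agent.Lib.MP_eee7a8_ag.TB.C4.PpG

/-!
# TAGBR, PP
-/

open Matrix

namespace Pool.Agent.Lib.MP_eee7a8_ag.TB.C4

open PB

theorem pp (hTool : ToolStatement) (hXb : XbSupStatement) (hXl : XlSupStatement)
    (hRec : RecbStatement) (hX1 : X1Statement) (hX1s : X1sStatement) (hX2 : X2Statement)
    (hX2b : X2bStatement) (hShear : ShearStatement) (hTop : TopStatement)
    (hTwist : TwistStatement) (hIndep : IndepStatement) (hNd : NondegStatement)
    (hPpt : PptStatement) (hPol : ∀ G : Subgroup SLZ, IsSurface G → ∀ (ι : Type) [Fintype ι]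
      (T : Fam ι), T.IsTri G → ∃ P, IsPol G T P) (hF : FIN_S) : PPStatement := by
  classical
  intro G hG e he B hB β₀ hβ₀
  have hnd : ∀ β ∈ B, ∀ l ∈ β.loops, NonDeg G e l.1 := fun β hβ =>
    hNd G hG e he β (hB β hβ).1 (hB β hβ).2
  obtain ⟨n, T₀, hT₀, hT₀a⟩ := hPpt G hG e he β₀ (hB β₀ hβ₀).1
  let Λ := LF β₀ (hB β₀ hβ₀).1 (hnd β₀ hβ₀)
  let LL : List SLZ := B.flatMap (fun β => β.loops.map Prod.fst)
  have hLL : ∀ h, h ∈ LL ↔ ∃ β ∈ B, ∃ l ∈ β.loops, l.1 = h := by
    intro h
    simp only [LL, List.mem_flatMap, List.mem_map]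
  have hLLl : ∀ l : Fin LL.length, IsLoop G (LL.get l) ∧ NCL G e (LL.get l) := by
    intro l
    obtain ⟨β, hβ, l', hl', h⟩ := (hLL _).1 (List.get_mem LL l)
    rw [← h]
    exact ⟨(β.loop l' hl').1, (hB β hβ).1.ncl l' hl'⟩
  obtain ⟨T, m, hT, hTe, hsh, hq0, hq1, hl0, hl1⟩ := hTwist G hG e he (Fin n) T₀ hT₀
    β₀.loops.length Λ B.length (fun l => Fin (B.get l).arcs.length) (fun l => QS (B.get l))
    (fun l => qs_adm (hB _ (List.get_mem _ _)).1) LL.length LL.get (fun l => (hLLl l).1)
    (fun l => (hLLl l).2)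
  obtain ⟨P₀, hP₀⟩ := hPol G hG (Fin n) T hT.toIsTri
  have hes : EdgeSim G e T := (hRec G hG e he (Fin n) T hT P₀ hP₀).1
  have hS : ∀ β ∈ B, Setup G e T β₀ β m := by
    intro β hβ
    obtain ⟨i, rfl⟩ := List.get_of_mem hβ
    refine ⟨hT, hes, (hB β₀ hβ₀).1, (hB _ hβ).1, hnd β₀ hβ₀, hnd _ hβ, ?_, hsh,
      fun j => hq0 j i, fun j h => hq1 j i h, ?_, ?_⟩
    · intro p hp
      exact hTe _ _ (hT₀a p hp) fun j g hg => β₀.disj _ (List.get_mem β₀.loops j) p hp g hg
    · intro j l hl
      obtain ⟨k, hk⟩ := List.get_of_mem ((hLL l.1).2 ⟨_, hβ, l, hl, rfl⟩)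
      have := hl0 j k
      rwa [hk] at this
    · intro j l hl h
      obtain ⟨k, hk⟩ := List.get_of_mem ((hLL l.1).2 ⟨_, hβ, l, hl, rfl⟩)
      have := hl1 j k
      rw [hk] at this
      exact this h
  refine ⟨n, T, EE G T β₀ m, hT, rz_EE hShear hG (hS β₀ hβ₀), ?_⟩
  intro P hP β hβ p hp
  obtain ⟨q, hq, hpq⟩ := hp
  have S := hS β hβ
  have hshB : ∀ l : Fin β.loops.length, ∃ m, IsShear G T (β.loops.get l).1 m := fun l =>
    (hShear G hG (Fin n) T hT.toIsTri _ (β.loop _ (List.get_mem _ _)).1).1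
  have lpA : ∀ β ∈ B, LP1 G e β.loops := fun β hβ =>
    ⟨β.loop, (hB β hβ).1.ncl, hnd β hβ, β.pairw⟩
  constructor
  · intro ν hν hne
    choose m' hm' using hshB
    have hmem : EE G T β₀ m + ν ∈ p.coeff.support := Finsupp.mem_support_iff.2 hne
    rw [hpq] at hmem
    obtain ⟨m₁, h1, m₂, h2, h12⟩ := supp_mul hmem
    obtain ⟨μs, h3, h4⟩ := supp_prod _ _ h1
    obtain ⟨ηs, h5, h6⟩ := supp_prod _ _ h2
    rw [List.forall₂_map_right_iff] at h3
    obtain ⟨μ, hμ, rfl⟩ := forall₂_ofFn h3
    obtain ⟨η, hη, rfl⟩ := forall₂_ofFn (forall₂_comp hq h5)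
    rw [List.sum_ofFn] at h4 h6
    obtain ⟨c1, c2, s, c3, c4, c5⟩ := core hTool hXb hXl hRec hX1 hX1s hX2 hX2b hShear hTop hIndep
      hF hG he S hP μ hμ η hη hν (by rw [h4, h6, h12]) m' hm'
    refine ⟨c1, ?_⟩
    exact match_loops hIndep hG he hT (lpA β₀ hβ₀) (lpA β hβ) c2 m hsh m' hm'
      (fun l hl => (hShear G hG (Fin n) T hT.toIsTri _ (β.loop l hl).1).2.1) s c3 c5
  · rintro rfl ν hν
    -- the arcs are edges
    have harc : (β.arcs.map (fun a => P a.1 a.2)).prod =
        AddMonoidAlgebra.single (β.arcs.map (fun p => T.del G p.1 p.2)).sum 1 := by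
      rw [← single_prod, List.map_map]
      congr 1
      apply List.map_congr_left
      intro a ha
      exact hP.edge _ _ (S.arcs a ha)
    have hcoef : p.coeff (EE G T β m + ν) =
        q.prod.coeff ((∑ j, ((β.loops.get j).2 : ℤ) • m j) + ν) := by
      rw [hpq, harc]
      unfold EE
      rw [add_assoc, coeff_single_mul]
    -- every decomposition is the standard one
    have key : ∀ (ηs : List (Fin n → ℤ)) (ν : Fin n → ℤ), ν ∈ KerL G e T →
        List.Forall₂ (fun m x => m ∈ x.coeff.support) ηs q →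
        ηs.sum = (∑ j, ((β.loops.get j).2 : ℤ) • m j) + ν →
        ηs = List.ofFn (fun j => ((β.loops.get j).2 : ℤ) • m j) ∧ ν = 0 := by
      intro ηs ν hν h5 h6
      obtain ⟨η, hη, rfl⟩ := forall₂_ofFn (forall₂_comp hq h5)
      rw [List.sum_ofFn] at h6
      have hμ : ∀ i : Fin β.arcs.length, T.del G (β.arcs.get i).1 (β.arcs.get i).2 ∈
          (P (β.arcs.get i).1 (β.arcs.get i).2).coeff.support := by
        intro i
        rw [hP.edge _ _ (S.arcs _ (List.get_mem _ _)), AddMonoidAlgebra.coeff_single,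
          Finsupp.mem_support_iff, Finsupp.single_eq_same]
        exact one_ne_zero
      obtain ⟨_, _, s, c3, c4, c5⟩ := core hTool hXb hXl hRec hX1 hX1s hX2 hX2b hShear hTop hIndep
        hF hG he S hP (fun i => T.del G (β.arcs.get i).1 (β.arcs.get i).2) hμ η hη hν (by
          rw [h6]
          unfold EE
          have : (β.arcs.map (fun p => T.del G p.1 p.2)).sum =
              ∑ i : Fin β.arcs.length, T.del G (β.arcs.get i).1 (β.arcs.get i).2 := by
            conv_lhs => rw [← List.ofFn_get β.arcs]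
            rw [List.map_ofFn, List.sum_ofFn]; rfl
          rw [this, add_assoc]) m hsh
      have hs1 := signs_all_one hIndep hG he hT (lpA β hβ) m hsh s c5
      have hηm : ∀ l, η l = ((β.loops.get l).2 : ℤ) • m l := by
        intro l
        rw [c4 l, hs1 l, one_mul]
      refine ⟨by congr 1; ext1 l; exact hηm l, ?_⟩
      have h7 : ∑ i, η i = ∑ j, ((β.loops.get j).2 : ℤ) • m j :=
        Finset.sum_congr rfl fun l _ => hηm l
      rw [h7] at h6
      exact left_eq_add.1 h6
    rw [hcoef]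
    by_cases hν0 : ν = 0
    · subst hν0
      rw [if_pos rfl, add_zero, ← List.sum_ofFn]
      apply coeff_prod_unique
      · -- membership and coefficient one
        have hall : ∀ l : Fin β.loops.length, ∀ x, IsTrP G T P (β.loops.get l).1
            (β.loops.get l).2 x → ((β.loops.get l).2 : ℤ) • m l ∈ x.coeff.support ∧
            x.coeff (((β.loops.get l).2 : ℤ) • m l) = 1 := by
          intro l x hx
          have hm0 : m l ≠ 0 := by
            intro h0
            have h1 := indep_gen hIndep hG he hT (J := Unit) (fun _ => (β.loops.get l).1)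
              (fun _ => (β.loop _ (List.get_mem _ _)).1)
              (fun i j h => absurd (Subsingleton.elim i j) h)
              (fun _ => S.e1.ncl _ (List.get_mem _ _)) (fun _ => S.nd1 _ (List.get_mem _ _))
              (fun _ => m l) (fun _ => hsh l) (fun _ => 1) (by rw [h0]; simp)
            have h2 := congrFun h1 ()
            exact absurd h2 (by norm_num)
          have h1 := (hTop G hG e he (Fin n) T hT P hP _ Λ l (m l) (hsh l) hm0 _
            (β.loop _ (List.get_mem _ _)).2 x hx).2.2.1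
          exact ⟨by rw [Finsupp.mem_support_iff, h1]; exact one_ne_zero, h1⟩
        have hlen : β.loops.length = q.length := hq.length_eq
        rw [List.forall₂_iff_get]
        refine ⟨by rw [List.length_ofFn]; exact hlen, ?_⟩
        intro i h1 h2
        rw [List.length_ofFn] at h1
        have h3 := hall ⟨i, h1⟩ (q.get ⟨i, h2⟩) (hq.get h1 h2)
        simp only [List.get_eq_getElem, List.getElem_ofFn]
        exact h3
      · intro ms h1 h2
        rw [List.sum_ofFn] at h2
        exact (key ms 0 (zero_mem _) h1 (by rw [add_zero]; exact h2)).1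
    · rw [if_neg hν0]
      by_contra hne
      have hmem := Finsupp.mem_support_iff.2 hne
      obtain ⟨ηs, h5, h6⟩ := supp_prod _ _ hmem
      exact hν0 (key ηs ν hν h5 h6).2

end Pool.Agent.Lib.MP_eee7a8_ag.TB.C4
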