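import Pool.Agent.Lib.MP_eee7a8_ag.TB.C4.Alg
import Pool.Agent.Lib.MP_eee7a8_ag.TB.IfaceB
import Pool.Agent.Lib.MP_eee7a8_ag.TB.H14.Del

/-!
# TAGBR, PP: auxiliary lemmas
-/

open Matrix

namespace Pool.Agent.Lib.MP_eee7a8_ag.TB.C4

open PB

/-! ## Pairings -/

section pairing

variable {ι : Type} [Fintype ι] (T : Fam ι) (X : Cusp → Cusp → ℤ)

theorem pair_add (m m' : ι → ℤ) : pair T (m + m') X = pair T m X + pair T m' X := by
  unfold pair
  rw [← Finset.sum_add_distrib]
  exact Finset.sum_congr rfl fun i _ => by rw [Pi.add_apply, add_mul]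

theorem pair_zero : pair T 0 X = 0 := by
  unfold pair
  exact Finset.sum_eq_zero fun i _ => by rw [Pi.zero_apply, zero_mul]

theorem pair_neg (m : ι → ℤ) : pair T (-m) X = -pair T m X := by
  have := pair_add T X (-m) m
  rw [neg_add_cancel, pair_zero] at this
  omega

theorem pair_sub (m m' : ι → ℤ) : pair T (m - m') X = pair T m X - pair T m' X := by
  rw [sub_eq_add_neg, pair_add, pair_neg, sub_eq_add_neg]

theorem pair_zsmul (k : ℤ) (m : ι → ℤ) : pair T (k • m) X = k * pair T m X := by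
  unfold pair
  rw [Finset.mul_sum]
  exact Finset.sum_congr rfl fun i _ => by rw [Pi.smul_apply, smul_eq_mul, mul_assoc]

theorem pair_list_sum (l : List (ι → ℤ)) :
    pair T l.sum X = (l.map (fun m => pair T m X)).sum := by
  induction l with
  | nil => rw [List.sum_nil, pair_zero]; rfl
  | cons a l ih => rw [List.sum_cons, pair_add, ih, List.map_cons, List.sum_cons]

theorem pair_finset_sum {κ : Type} (s : Finset κ) (f : κ → ι → ℤ) :
    pair T (∑ j ∈ s, f j) X = ∑ j ∈ s, pair T (f j) X := by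
  classical
  induction s using Finset.induction_on with
  | empty => rw [Finset.sum_empty, Finset.sum_empty, pair_zero]
  | insert a s ha ih => rw [Finset.sum_insert ha, Finset.sum_insert ha, pair_add, ih]

theorem pair_sum_right {κ : Type} (s : Finset κ) (Y : κ → Cusp → Cusp → ℤ) (m : ι → ℤ) :
    pair T m (fun a b => ∑ j ∈ s, Y j a b) = ∑ j ∈ s, pair T m (Y j) := by
  unfold pair
  rw [Finset.sum_comm]
  exact Finset.sum_congr rfl fun i _ => Finset.mul_sum _ _ _

end pairing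

/-! ## The arc `e` -/

section ge

variable {G : Subgroup SLZ} {e : Option (Cusp × Cusp)}

theorem sameArc_symm {a b c d : Cusp} (h : SameArc G a b c d) : SameArc G c d a b := by
  obtain ⟨g, hg, ⟨rfl, rfl⟩ | ⟨rfl, rfl⟩⟩ := h
  · exact ⟨g⁻¹, G.inv_mem hg, Or.inl ⟨by simp, by simp⟩⟩
  · exact ⟨g⁻¹, G.inv_mem hg, Or.inr ⟨by simp, by simp⟩⟩

theorem sameArc_trans {a b c d a' b' : Cusp} (h : SameArc G a b c d) (h' : SameArc G c d a' b') :
    SameArc G a b a' b' := by
  obtain ⟨g, hg, ⟨rfl, rfl⟩ | ⟨rfl, rfl⟩⟩ := h <;>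
  obtain ⟨g', hg', ⟨rfl, rfl⟩ | ⟨rfl, rfl⟩⟩ := h'
  · exact ⟨g' * g, G.mul_mem hg' hg, Or.inl ⟨by rw [mul_smul], by rw [mul_smul]⟩⟩
  · exact ⟨g' * g, G.mul_mem hg' hg, Or.inr ⟨by rw [mul_smul], by rw [mul_smul]⟩⟩
  · exact ⟨g' * g, G.mul_mem hg' hg, Or.inr ⟨by rw [mul_smul], by rw [mul_smul]⟩⟩
  · exact ⟨g' * g, G.mul_mem hg' hg, Or.inl ⟨by rw [mul_smul], by rw [mul_smul]⟩⟩

theorem sameArc_refl (a b : Cusp) : SameArc G a b a b :=
  ⟨1, G.one_mem, Or.inl ⟨by simp, by simp⟩⟩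

theorem sameArc_swap (a b : Cusp) : SameArc G a b b a :=
  ⟨1, G.one_mem, Or.inr ⟨by simp, by simp⟩⟩

theorem sameArc_smul {g : SLZ} (hg : g ∈ G) (a b : Cusp) : SameArc G a b (g • a) (g • b) :=
  ⟨g, hg, Or.inl ⟨rfl, rfl⟩⟩

theorem ge_same {a b c d : Cusp} (h : Ge G e a b) (h' : SameArc G a b c d) : Ge G e c d := by
  obtain ⟨p, hp, h1⟩ := h
  exact ⟨p, hp, sameArc_trans h1 h'⟩

theorem ge_symm {a b : Cusp} (h : Ge G e a b) : Ge G e b a := ge_same h (sameArc_swap a b)

theorem ge_smul {g : SLZ} (hg : g ∈ G) {a b : Cusp} (h : Ge G e a b) :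
    Ge G e (g • a) (g • b) := ge_same h (sameArc_smul hg a b)

theorem fe_same {ι : Type} {T : Fam ι} {a b c d : Cusp} (h : T.E G a b)
    (h' : SameArc G a b c d) : T.E G c d := by
  obtain ⟨i, h1⟩ := h
  exact ⟨i, sameArc_trans h1 h'⟩

theorem fe_symm {ι : Type} {T : Fam ι} {a b : Cusp} (h : T.E G a b) : T.E G b a :=
  fe_same h (sameArc_swap a b)

theorem fe_smul {ι : Type} {T : Fam ι} {g : SLZ} (hg : g ∈ G) {a b : Cusp} (h : T.E G a b) :
    T.E G (g • a) (g • b) := fe_same h (sameArc_smul hg a b)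

theorem fe_ne {ι : Type} {T : Fam ι} (hT : T.NonCross G) {a b : Cusp} (h : T.E G a b) :
    a ≠ b := by
  obtain ⟨i, g, hg, ⟨rfl, rfl⟩ | ⟨rfl, rfl⟩⟩ := h
  · exact fun h => hT.ne i (smul_left_cancel g h)
  · exact fun h => hT.ne i (smul_left_cancel g h).symm

theorem sim_symm {a b : Cusp} (h : Sim G e a b) : Sim G e b a := Relation.EqvGen.symm _ _ h

theorem sim_trans {a b c : Cusp} (h : Sim G e a b) (h' : Sim G e b c) : Sim G e a c :=
  Relation.EqvGen.trans _ _ _ h h'

theorem sim_refl (a : Cusp) : Sim G e a a := Relation.EqvGen.refl a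

theorem sim_ge {a b : Cusp} (h : Ge G e a b) : Sim G e a b := Relation.EqvGen.rel _ _ h

theorem nc_edge {ι : Type} {T : Fam ι} (hT : Good G e T) {a b : Cusp} (h : T.E G a b) :
    NC G e a b := fun c d hcd => hT.nocross a b c d h (hT.mem c d hcd)

open Classical in
theorem del_single {ι : Type} [Fintype ι] {T : Fam ι} (hT : T.IsTri G) {i : ι} {a b : Cusp}
    (h : SameArc G (T.s i) (T.t i) a b) : T.del G a b = Pi.single i 1 := by
  have := (PB.H14.del G ι inferInstance T hT).2.2.1 i a b h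
  convert this

theorem pair_del {ι : Type} [Fintype ι] {T : Fam ι} (hT : T.IsTri G) {Y : Cusp → Cusp → ℤ}
    (hs : ∀ x y, Y x y = Y y x) (hi : ∀ g ∈ G, ∀ x y, Y (g • x) (g • y) = Y x y) {a b : Cusp}
    (h : T.E G a b) : pair T (T.del G a b) Y = Y a b :=
  (PB.H14.del G ι inferInstance T hT).2.2.2 Y hs hi a b h

/-- The index of an edge of the triangulation determines the orbit. -/
theorem del_ge {ι : Type} [Fintype ι] {T : Fam ι} (hT : T.IsTri G) {a c : Cusp}
    (hac : T.E G a c) {i : ι} (h : T.del G a c i ≠ 0) : SameArc G (T.s i) (T.t i) a c := by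
  classical
  obtain ⟨j, hj⟩ := hac
  rw [del_single hT hj] at h
  have : i = j := by
    by_contra hne
    exact h (Pi.single_eq_of_ne hne _)
  rw [this]; exact hj

theorem edge_not_ge {ι : Type} {T : Fam ι} (hT : Good G e T) {a b c : Cusp}
    (hab : Ge G e a b) (hac : T.E G a c) (hbc : T.E G b c) : ¬ Ge G e a c := by
  intro h
  exact hT.nofold b a c (ge_symm hab) h (fe_ne hT.toNonCross hbc) hbc

theorem rz_kerL {ι : Type} [Fintype ι] {T : Fam ι} (hT : Good G e T) {ν : ι → ℤ}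
    (h : ν ∈ KerL G e T) : Rz G e T ν := by
  refine AddSubgroup.closure_induction (p := fun x _ => Rz G e T x) ?_ ?_ ?_ ?_ h
  · rintro x ⟨a, b, c, hab, hac, hbc, rfl⟩ i hi
    have h1 : T.del G a c i = 0 := by
      by_contra h0
      exact edge_not_ge hT hab hac hbc (ge_same hi (del_ge hT.toIsTri hac h0))
    have h2 : T.del G b c i = 0 := by
      by_contra h0
      exact edge_not_ge hT (ge_symm hab) hbc hac (ge_same hi (del_ge hT.toIsTri hbc h0))
    rw [Pi.sub_apply, h1, h2, sub_zero]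
  · intro i _; rfl
  · intro x y _ _ hx hy i hi
    rw [Pi.add_apply, hx i hi, hy i hi, add_zero]
  · intro x _ hx i hi
    rw [Pi.neg_apply, hx i hi, neg_zero]

/-- Edges with equivalent ends are translates of `e` (first clause of RECB). -/
def EdgeSim (G : Subgroup SLZ) (e : Option (Cusp × Cusp)) {ι : Type} (T : Fam ι) : Prop :=
  ∀ a b, T.E G a b → Sim G e a b → Ge G e a b

theorem pair_kerL {ι : Type} [Fintype ι] {T : Fam ι} (hT : Good G e T) (hes : EdgeSim G e T)
    {X : Cusp → Cusp → ℤ} (hX : SuperT G e X) {ν : ι → ℤ}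
    (h : ν ∈ KerL G e T) : pair T ν X = 0 := by
  refine AddSubgroup.closure_induction (p := fun x _ => pair T x X = 0) ?_ ?_ ?_ ?_ h
  · rintro x ⟨a, b, c, hab, hac, hbc, rfl⟩
    rw [pair_sub, pair_del hT.toIsTri hX.symm hX.inv hac, pair_del hT.toIsTri hX.symm hX.inv hbc,
      hX.slide a b c (sim_ge hab) (nc_edge hT hac) (nc_edge hT hbc)
      (fun h0 => edge_not_ge hT hab hac hbc (hes a c hac h0)), sub_self]
  · exact pair_zero T X
  · intro x y _ _ hx hy
    rw [pair_add, hx, hy, add_zero]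
  · intro x _ hx
    rw [pair_neg, hx, neg_zero]

end ge

end Pool.Agent.Lib.MP_eee7a8_ag.TB.C4
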