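import Pool.Agent.Lib.MP_eee7a8_ag.TB.C4.PpA

/-!
# TAGBR, PP: the arcs and the loops of a system as families
-/

open Matrix

namespace Pool.Agent.Lib.MP_eee7a8_ag.TB.C4

open PB

/-! ## Axes -/

theorem axesCross_symm {h k : SLZ} (H : AxesCross h k) : AxesCross k h := by
  obtain ⟨⟨a, ha⟩, ⟨b, hb⟩, ⟨c, hc⟩, ⟨d, hd⟩⟩ := H
  exact ⟨⟨a, ha.2, ha.1⟩, ⟨c, hc.2, hc.1⟩, ⟨b, hb.2, hb.1⟩, ⟨d, hd.2, hd.1⟩⟩

theorem axesCross_conj {h k : SLZ} (g : SLZ) (H : AxesCross h k) :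
    AxesCross (g * h * g⁻¹) (g * k * g⁻¹) := by
  obtain ⟨⟨a, ha⟩, ⟨b, hb⟩, ⟨c, hc⟩, ⟨d, hd⟩⟩ := H
  exact ⟨⟨g • a, by rw [side_conj, side_conj]; exact ha⟩,
    ⟨g • b, by rw [side_conj, side_conj]; exact hb⟩,
    ⟨g • c, by rw [side_conj, side_conj]; exact hc⟩,
    ⟨g • d, by rw [side_conj, side_conj]; exact hd⟩⟩

theorem axesCross_move {h k g : SLZ} (H : AxesCross k (g * h * g⁻¹)) :
    AxesCross h (g⁻¹ * k * g⁻¹⁻¹) := by
  have := axesCross_conj g⁻¹ H
  have h2 : g⁻¹ * (g * h * g⁻¹) * g⁻¹⁻¹ = h := by group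
  rw [h2] at this
  exact axesCross_symm this

theorem disjLoop_symm {G : Subgroup SLZ} {h k : SLZ} (H : DisjLoop G h k) : DisjLoop G k h := by
  intro g hg
  obtain ⟨h1, h2, h3, h4, h5⟩ := H g⁻¹ (G.inv_mem hg)
  refine ⟨fun h0 => h1 (axesCross_move h0), ?_, ?_, ?_, ?_⟩
  · intro h0
    apply h2
    rw [← h0]; group
  · intro h0
    apply h3
    have : k = -(g * h * g⁻¹) := by rw [h0, neg_neg]
    rw [this, mul_neg, neg_mul]
    congr 1; group
  · intro h0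
    apply h4
    have : k = (g * h * g⁻¹)⁻¹ := by rw [h0, inv_inv]
    rw [this]; group
  · intro h0
    apply h5
    have h6 : k⁻¹ = -(g * h * g⁻¹) := by rw [h0, neg_neg]
    have : k = -(g * h * g⁻¹)⁻¹ := by
      have h7 : (-(g * h * g⁻¹)) * (-(g * h * g⁻¹)⁻¹) = 1 := by
        rw [neg_mul_neg, mul_inv_cancel]
      rw [← h6] at h7
      have := congrArg (fun x => k * x) h7
      simp only [← mul_assoc, mul_inv_cancel, one_mul, mul_one] at this
      exact this.symm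
    rw [this, mul_neg, neg_mul]
    congr 1; group

section

variable {G : Subgroup SLZ} {e : Option (Cusp × Cusp)}

/-! ## Arcs of a system -/

/-- The arcs of a system. -/
def QS (β : Sys G) : Fam (Fin β.arcs.length) :=
  ⟨fun i => (β.arcs.get i).1, fun i => (β.arcs.get i).2⟩

theorem qs_E {β : Sys G} {a b : Cusp} :
    (QS β).E G a b ↔ ∃ p ∈ β.arcs, SameArc G p.1 p.2 a b := by
  constructor
  · rintro ⟨i, hi⟩
    exact ⟨β.arcs.get i, List.get_mem _ _, hi⟩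
  · rintro ⟨p, hp, h⟩
    obtain ⟨i, hi⟩ := List.get_of_mem hp
    refine ⟨i, ?_⟩
    change SameArc G (β.arcs.get i).1 (β.arcs.get i).2 a b
    rw [hi]; exact h

theorem sys_nocross {β : Sys G} {a b c d : Cusp} (h : (QS β).E G a b) (h' : (QS β).E G c d) :
    ¬ Cross a b c d := by
  obtain ⟨p, hp, g, hg, h1⟩ := qs_E.1 h
  obtain ⟨q, hq, g', hg', h2⟩ := qs_E.1 h'
  have h0 := β.nocross p hp q hq (g⁻¹ * g') (G.mul_mem (G.inv_mem hg) hg')
  intro hc
  apply h0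
  rw [← cross_smul g, ← mul_smul, ← mul_smul]
  rw [mul_inv_cancel_left]
  rcases h1 with ⟨rfl, rfl⟩ | ⟨rfl, rfl⟩ <;> rcases h2 with ⟨rfl, rfl⟩ | ⟨rfl, rfl⟩
  · exact hc
  · exact cross_comm_right.1 hc
  · exact cross_comm_left.1 hc
  · exact cross_comm_left.1 (cross_comm_right.1 hc)

theorem qs_adm {β : Sys G} (hβ : SysE G e β) : QAdm G e (QS β) where
  ne := fun i => β.ne _ (List.get_mem _ _)
  nocross := fun _ _ _ _ h h' => sys_nocross h h'
  nc := fun i => hβ.nc _ (List.get_mem _ _)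
  ns := fun i => hβ.ns _ (List.get_mem _ _)

theorem xb_zero {β : Sys G} {p : Cusp × Cusp} (hp : p ∈ β.arcs) :
    XB G e (QS β) p.1 p.2 = 0 := by
  unfold XB
  have : {q : Cusp × Cusp | (QS β).E G q.1 q.2 ∧ Cross q.1 q.2 p.1 p.2 ∧
      ¬ Sim G e q.1 p.1 ∧ ¬ Sim G e q.1 p.2 ∧ ¬ Sim G e q.2 p.1 ∧ ¬ Sim G e q.2 p.2} = ∅ := by
    ext q
    simp only [Set.mem_setOf_eq, Set.mem_empty_iff_false, iff_false, not_and]
    intro h1 h2
    exact absurd h2 (sys_nocross h1 (qs_E.2 ⟨p, hp, sameArc_refl _ _⟩))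
  rw [this, Set.ncard_empty]; rfl

/-! ## Loops of a system -/

/-- The loops of a system. -/
def LF (β : Sys G) (hβ : SysE G e β) (hnd : ∀ l ∈ β.loops, NonDeg G e l.1) :
    LoopFam G e β.loops.length where
  h := fun i => (β.loops.get i).1
  loop := fun i => (β.loop _ (List.get_mem _ _)).1
  disj := by
    intro i j hij
    rcases lt_or_gt_of_ne hij with h | h
    · exact List.pairwise_iff_get.1 β.pairw i j h
    · exact disjLoop_symm (List.pairwise_iff_get.1 β.pairw j i h)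
  nc := fun i => hβ.ncl _ (List.get_mem _ _)
  nd := fun i => hnd _ (List.get_mem _ _)

theorem xl_zero {h : SLZ} {a b : Cusp} (H : ∀ g ∈ G, 0 < side h (g • a) * side h (g • b)) :
    XL G h a b = 0 := by
  unfold XL
  have : {k : SLZ | (∃ g ∈ G, k = g * h * g⁻¹) ∧ side k a * side k b < 0} = ∅ := by
    ext k
    simp only [Set.mem_setOf_eq, Set.mem_empty_iff_false, iff_false, not_and, not_lt]
    rintro ⟨g, hg, rfl⟩
    have h1 := side_conj g h (g⁻¹ • a)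
    have h2 := side_conj g h (g⁻¹ • b)
    rw [smul_inv_smul] at h1 h2
    rw [h1, h2]
    exact (H _ (G.inv_mem hg)).le
  rw [this, Set.ncard_empty]; rfl

theorem xl_fin (hF : FIN_S) {h : SLZ} (ht : 2 < |h.1.trace|) (a b : Cusp) :
    {k : SLZ | (∃ g ∈ G, k = g * h * g⁻¹) ∧ side k a * side k b < 0}.Finite := by
  have h9 : (9 : ℤ) ≤ h.1.trace ^ 2 := by
    have : (3 : ℤ) ≤ |h.1.trace| := by omega
    calc (9 : ℤ) = 3 * 3 := by norm_num
      _ ≤ |h.1.trace| * |h.1.trace| := mul_le_mul this this (by norm_num) (abs_nonneg _)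
      _ = h.1.trace ^ 2 := by rw [abs_mul_abs_self]; ring
  have hS : SFam G {f | ∃ g ∈ G, f = sideF (g * h * g⁻¹)} := by
    refine ⟨?_, ?_, ⟨h.1.trace ^ 2 - 4, ?_⟩⟩
    · rintro f ⟨g, _, rfl⟩
      rw [disc_sideF, trace_conj]; omega
    · rintro g hg f ⟨g', hg', rfl⟩
      exact ⟨g * g', G.mul_mem hg hg', by rw [act_sideF]; congr 1; group⟩
    · rintro f ⟨g, _, rfl⟩
      rw [disc_sideF, trace_conj]
  have := hF G _ hS a b
  refine Set.Finite.of_finite_image (f := sideF) (this.subset ?_) ?_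
  · rintro f ⟨k, ⟨⟨g, hg, rfl⟩, hk⟩, rfl⟩
    exact ⟨⟨g, hg, rfl⟩, by rw [ev_sideF, ev_sideF]; exact hk⟩
  · rintro k ⟨⟨g, _, rfl⟩, _⟩ k' ⟨⟨g', _, rfl⟩, _⟩ hkk
    have h1 := trace_conj g h
    have h2 := trace_conj g' h
    generalize g * h * g⁻¹ = x at *
    generalize g' * h * g'⁻¹ = y at *
    rw [Matrix.trace_fin_two] at h1 h2
    unfold sideF at hkk
    injection hkk with e1 e2 e3
    ext i j
    fin_cases i <;> fin_cases j
    · simp only [Fin.zero_eta, Fin.isValue]; omega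
    · simp only [Fin.zero_eta, Fin.isValue, Fin.mk_one]; omega
    · simp only [Fin.zero_eta, Fin.isValue, Fin.mk_one]; omega
    · simp only [Fin.isValue, Fin.mk_one]; omega

theorem xl_pos (hF : FIN_S) {h : SLZ} (ht : 2 < |h.1.trace|) {a b : Cusp}
    (H : XL G h a b = 0) : ∀ g ∈ G, ¬ side h (g • a) * side h (g • b) < 0 := by
  intro g hg hlt
  unfold XL at H
  have h0 : Set.ncard {k : SLZ | (∃ g ∈ G, k = g * h * g⁻¹) ∧ side k a * side k b < 0} = 0 := by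
    exact_mod_cast H
  rw [Set.ncard_eq_zero (xl_fin hF ht a b)] at h0
  have : g⁻¹ * h * g⁻¹⁻¹ ∈ {k : SLZ | (∃ g ∈ G, k = g * h * g⁻¹) ∧ side k a * side k b < 0} := by
    refine ⟨⟨g⁻¹, G.inv_mem hg, rfl⟩, ?_⟩
    have h1 := side_conj g⁻¹ h (g • a)
    have h2 := side_conj g⁻¹ h (g • b)
    rw [inv_smul_smul] at h1 h2
    rw [h1, h2]; exact hlt
  rw [h0] at this
  exact this

theorem xf_super {r : ℕ} (Λ : LoopFam G e r) (h : ∀ i, SuperT G e (XL G (Λ.h i))) :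
    SuperT G e (XF G Λ) where
  symm := fun a b => Finset.sum_congr rfl fun i _ => (h i).symm a b
  nonneg := fun a b => Finset.sum_nonneg fun i _ => (h i).nonneg a b
  inv := fun g hg a b => Finset.sum_congr rfl fun i _ => (h i).inv g hg a b
  slide := fun a a' b h1 h2 h3 h4 => Finset.sum_congr rfl fun i _ =>
    (h i).slide a a' b h1 h2 h3 h4
  ineq := by
    intro a b c d h1 h2 h3 h4 h5 h6 h7
    unfold XF
    rw [← Finset.sum_add_distrib, ← Finset.sum_add_distrib]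
    exact Finset.sum_le_sum fun i _ => (h i).ineq a b c d h1 h2 h3 h4 h5 h6 h7

end

end Pool.Agent.Lib.MP_eee7a8_ag.TB.C4
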