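import Pool.Agent.Lib.MP_eee7a8_ag.TB.C4.PpB

/-!
# TAGBR, PP: splitting of `KerL`, matching of arcs and loops
-/

open Matrix

namespace Pool.Agent.Lib.MP_eee7a8_ag.TB.C4

open PB

section

variable {G : Subgroup SLZ} {e : Option (Cusp × Cusp)}

/-! ## Restriction of exponents -/

open Classical in
/-- Restriction of an exponent. -/
noncomputable def res {ι : Type} (A : ι → Prop) (x : ι → ℤ) : ι → ℤ := fun i => if A i then x i else 0

theorem res_add {ι : Type} (A : ι → Prop) (x y : ι → ℤ) :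
    res A (x + y) = res A x + res A y := by
  ext i
  by_cases h : A i <;> simp [res, h]

theorem res_zero {ι : Type} (A : ι → Prop) : res A (0 : ι → ℤ) = 0 := by
  ext i; unfold res; split_ifs <;> rfl

theorem res_neg {ι : Type} (A : ι → Prop) (x : ι → ℤ) : res A (-x) = -res A x := by
  ext i
  by_cases h : A i <;> simp [res, h]

theorem res_sub {ι : Type} (A : ι → Prop) (x y : ι → ℤ) :
    res A (x - y) = res A x - res A y := by
  rw [sub_eq_add_neg, res_add, res_neg, sub_eq_add_neg]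

theorem res_self {ι : Type} {A : ι → Prop} {x : ι → ℤ} (h : ∀ i, x i ≠ 0 → A i) :
    res A x = x := by
  ext i
  unfold res
  split_ifs with h1
  · rfl
  · by_contra h2
    exact h1 (h i fun h3 => h2 h3.symm)

theorem res_none {ι : Type} {A : ι → Prop} {x : ι → ℤ} (h : ∀ i, x i ≠ 0 → ¬ A i) :
    res A x = 0 := by
  ext i
  unfold res
  split_ifs with h1
  · by_contra h2
    exact h i h2 h1
  · rfl

theorem res_kerL {ι : Type} [Fintype ι] {T : Fam ι} (hT : Good G e T) {A : ι → Prop}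
    (hA : ∀ a b c, Ge G e a b → T.E G a c → T.E G b c → ∀ i j,
      SameArc G (T.s i) (T.t i) a c → SameArc G (T.s j) (T.t j) b c → (A i ↔ A j))
    {ν : ι → ℤ} (h : ν ∈ KerL G e T) : res A ν ∈ KerL G e T := by
  classical
  refine AddSubgroup.closure_induction (p := fun x _ => res A x ∈ KerL G e T) ?_ ?_ ?_ ?_ h
  · rintro x ⟨a, b, c, hab, hac, hbc, rfl⟩
    by_cases h1 : ∀ i, (T.del G a c - T.del G b c) i ≠ 0 → A i
    · rw [res_self h1]
      exact AddSubgroup.subset_closure ⟨a, b, c, hab, hac, hbc, rfl⟩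
    · push Not at h1
      obtain ⟨i₀, hi₀, hAi⟩ := h1
      obtain ⟨i, hi⟩ := id hac
      obtain ⟨j, hj⟩ := id hbc
      have hij := hA a b c hab hac hbc i j hi hj
      have h2 : i₀ = i ∨ i₀ = j := by
        by_contra h3
        push Not at h3
        apply hi₀
        rw [Pi.sub_apply, del_single hT.toIsTri hi, del_single hT.toIsTri hj,
          Pi.single_eq_of_ne h3.1, Pi.single_eq_of_ne h3.2, sub_zero]
      have h4 : ¬ A i ∧ ¬ A j := by
        rcases h2 with h2 | h2
        · rw [h2] at hAi; exact ⟨hAi, fun h => hAi (hij.2 h)⟩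
        · rw [h2] at hAi; exact ⟨fun h => hAi (hij.1 h), hAi⟩
      rw [res_none]
      · exact zero_mem _
      · intro k hk hAk
        apply hk
        have h5 : k ≠ i := fun h => h4.1 (h ▸ hAk)
        have h6 : k ≠ j := fun h => h4.2 (h ▸ hAk)
        rw [Pi.sub_apply, del_single hT.toIsTri hi, del_single hT.toIsTri hj,
          Pi.single_eq_of_ne h5, Pi.single_eq_of_ne h6, sub_zero]
  · rw [res_zero]; exact zero_mem _
  · intro x y _ _ hx hy
    rw [res_add]; exact add_mem hx hy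
  · intro x _ hx
    rw [res_neg]; exact neg_mem hx

/-- The pair `ab` is crossed by a translate of the axis of an element of `H`. -/
def Crossed (G : Subgroup SLZ) (H : Set SLZ) (a b : Cusp) : Prop :=
  ∃ h ∈ H, ∃ g ∈ G, side h (g • a) * side h (g • b) < 0

theorem crossed_same {H : Set SLZ} {a b c d : Cusp} (h : SameArc G a b c d) :
    Crossed G H a b ↔ Crossed G H c d := by
  obtain ⟨g, hg, ⟨rfl, rfl⟩ | ⟨rfl, rfl⟩⟩ := h
  · constructor
    · rintro ⟨h, hh, g', hg', h1⟩
      refine ⟨h, hh, g' * g⁻¹, G.mul_mem hg' (G.inv_mem hg), ?_⟩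
      rw [mul_smul, mul_smul, inv_smul_smul, inv_smul_smul]; exact h1
    · rintro ⟨h, hh, g', hg', h1⟩
      refine ⟨h, hh, g' * g, G.mul_mem hg' hg, ?_⟩
      rw [mul_smul, mul_smul]; exact h1
  · constructor
    · rintro ⟨h, hh, g', hg', h1⟩
      refine ⟨h, hh, g' * g⁻¹, G.mul_mem hg' (G.inv_mem hg), ?_⟩
      rw [mul_smul, mul_smul, inv_smul_smul, inv_smul_smul, mul_comm]; exact h1
    · rintro ⟨h, hh, g', hg', h1⟩
      refine ⟨h, hh, g' * g, G.mul_mem hg' hg, ?_⟩
      rw [mul_smul, mul_smul, mul_comm]; exact h1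

theorem crossed_ge {H : Set SLZ} (hH : ∀ h ∈ H, NCL G e h) {a b c : Cusp} (hab : Ge G e a b) :
    Crossed G H a c → Crossed G H b c := by
  rintro ⟨h, hh, g, hg, h1⟩
  refine ⟨h, hh, g, hg, ?_⟩
  have h2 := hH h hh _ _ (ge_smul hg hab)
  rcases mul_neg_iff.1 h1 with ⟨h3, h4⟩ | ⟨h3, h4⟩ <;> rcases mul_pos_iff.1 h2 with ⟨h5, h6⟩ | ⟨h5, h6⟩
  · exact mul_neg_of_pos_of_neg h6 h4
  · omega
  · omega
  · exact mul_neg_of_neg_of_pos h6 h4

end

end Pool.Agent.Lib.MP_eee7a8_ag.TB.C4
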