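import Pool.Agent.Lib.MP_eee7a8_ag.TB.C4.PpC

/-!
# TAGBR, PP: matching of arcs and loops
-/

open Matrix

namespace Pool.Agent.Lib.MP_eee7a8_ag.TB.C4

open PB

section

variable {G : Subgroup SLZ} {e : Option (Cusp × Cusp)}

/-! ## Arcs -/

/-- Invariance of `Sim`. -/
def SimInv (G : Subgroup SLZ) (e : Option (Cusp × Cusp)) : Prop :=
  ∀ g ∈ G, ∀ a b, Sim G e a b → Sim G e (g • a) (g • b)

theorem slideArc_refl (p : Cusp × Cusp) : SlideArc G e p p :=
  ⟨1, G.one_mem, Or.inl ⟨by rw [one_smul]; exact sim_refl _, by rw [one_smul]; exact sim_refl _⟩⟩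

theorem slideArc_symm (hs : SimInv G e) {p q : Cusp × Cusp} (h : SlideArc G e p q) :
    SlideArc G e q p := by
  obtain ⟨g, hg, ⟨h1, h2⟩ | ⟨h1, h2⟩⟩ := h
  · refine ⟨g⁻¹, G.inv_mem hg, Or.inl ⟨?_, ?_⟩⟩
    · have := hs g⁻¹ (G.inv_mem hg) _ _ h1
      rw [inv_smul_smul] at this; exact sim_symm this
    · have := hs g⁻¹ (G.inv_mem hg) _ _ h2
      rw [inv_smul_smul] at this; exact sim_symm this
  · refine ⟨g⁻¹, G.inv_mem hg, Or.inr ⟨?_, ?_⟩⟩
    · have := hs g⁻¹ (G.inv_mem hg) _ _ h2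
      rw [inv_smul_smul] at this; exact sim_symm this
    · have := hs g⁻¹ (G.inv_mem hg) _ _ h1
      rw [inv_smul_smul] at this; exact sim_symm this

theorem slideArc_trans (hs : SimInv G e) {p q r : Cusp × Cusp} (h : SlideArc G e p q)
    (h' : SlideArc G e q r) : SlideArc G e p r := by
  obtain ⟨g, hg, h1⟩ := h
  obtain ⟨k, hk, h2⟩ := h'
  refine ⟨k * g, G.mul_mem hk hg, ?_⟩
  rcases h1 with ⟨h1, h1'⟩ | ⟨h1, h1'⟩ <;> rcases h2 with ⟨h2, h2'⟩ | ⟨h2, h2'⟩
  · refine Or.inl ⟨?_, ?_⟩ <;> rw [mul_smul]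
    · exact sim_trans (hs k hk _ _ h1) h2
    · exact sim_trans (hs k hk _ _ h1') h2'
  · refine Or.inr ⟨?_, ?_⟩ <;> rw [mul_smul]
    · exact sim_trans (hs k hk _ _ h1) h2
    · exact sim_trans (hs k hk _ _ h1') h2'
  · refine Or.inr ⟨?_, ?_⟩ <;> rw [mul_smul]
    · exact sim_trans (hs k hk _ _ h1) h2'
    · exact sim_trans (hs k hk _ _ h1') h2
  · refine Or.inl ⟨?_, ?_⟩ <;> rw [mul_smul]
    · exact sim_trans (hs k hk _ _ h1) h2'
    · exact sim_trans (hs k hk _ _ h1') h2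

theorem slideArc_same {p q : Cusp × Cusp} (h : SameArc G p.1 p.2 q.1 q.2) : SlideArc G e p q := by
  obtain ⟨g, hg, ⟨h1, h2⟩ | ⟨h1, h2⟩⟩ := h
  · exact ⟨g, hg, Or.inl ⟨by rw [h1]; exact sim_refl _, by rw [h2]; exact sim_refl _⟩⟩
  · exact ⟨g, hg, Or.inr ⟨by rw [h1]; exact sim_refl _, by rw [h2]; exact sim_refl _⟩⟩

/-- The setoid of slides. -/
def slSetoid (hs : SimInv G e) : Setoid (Cusp × Cusp) where
  r := SlideArc G e
  iseqv := ⟨slideArc_refl, fun h => slideArc_symm hs h, fun h h' => slideArc_trans hs h h'⟩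

open Classical in
/-- Class count. -/
noncomputable def phi {ι : Type} [Fintype ι] (T : Fam ι) (hs : SimInv G e)
    (q : Quotient (slSetoid hs)) (x : ι → ℤ) : ℤ :=
  ∑ i, if Quotient.mk (slSetoid hs) (T.s i, T.t i) = q then x i else 0

theorem phi_add {ι : Type} [Fintype ι] (T : Fam ι) (hs : SimInv G e)
    (q : Quotient (slSetoid hs)) (x y : ι → ℤ) :
    phi T hs q (x + y) = phi T hs q x + phi T hs q y := by
  unfold phi
  rw [← Finset.sum_add_distrib]
  refine Finset.sum_congr rfl fun i _ => ?_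
  split_ifs <;> simp

theorem phi_zero {ι : Type} [Fintype ι] (T : Fam ι) (hs : SimInv G e)
    (q : Quotient (slSetoid hs)) : phi T hs q 0 = 0 := by
  unfold phi
  exact Finset.sum_eq_zero fun i _ => by split_ifs <;> rfl

theorem phi_neg {ι : Type} [Fintype ι] (T : Fam ι) (hs : SimInv G e)
    (q : Quotient (slSetoid hs)) (x : ι → ℤ) : phi T hs q (-x) = -phi T hs q x := by
  have := phi_add T hs q (-x) x
  rw [neg_add_cancel, phi_zero] at this
  omega

open Classical in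
theorem phi_del {ι : Type} [Fintype ι] {T : Fam ι} (hT : T.IsTri G) (hs : SimInv G e)
    (q : Quotient (slSetoid hs)) {a b : Cusp} (h : T.E G a b) :
    phi T hs q (T.del G a b) = if Quotient.mk (slSetoid hs) (a, b) = q then 1 else 0 := by
  obtain ⟨i, hi⟩ := h
  rw [del_single hT hi]
  have h1 : Quotient.mk (slSetoid hs) (T.s i, T.t i) = Quotient.mk (slSetoid hs) (a, b) :=
    Quotient.sound (s := slSetoid hs) (slideArc_same (p := (T.s i, T.t i)) (q := (a, b)) hi)
  rw [← h1]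
  unfold phi
  rw [Finset.sum_eq_single i]
  · split_ifs <;> simp
  · intro j _ hj
    rw [Pi.single_eq_of_ne hj]
    split_ifs <;> rfl
  · intro h; exact absurd (Finset.mem_univ i) h

theorem phi_kerL {ι : Type} [Fintype ι] {T : Fam ι} (hT : T.IsTri G) (hs : SimInv G e)
    (q : Quotient (slSetoid hs)) {ν : ι → ℤ} (h : ν ∈ KerL G e T) : phi T hs q ν = 0 := by
  classical
  refine AddSubgroup.closure_induction (p := fun x _ => phi T hs q x = 0) ?_ ?_ ?_ ?_ h
  · rintro x ⟨a, b, c, hab, hac, hbc, rfl⟩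
    have h1 : Quotient.mk (slSetoid hs) (a, c) = Quotient.mk (slSetoid hs) (b, c) :=
      Quotient.sound (s := slSetoid hs) ⟨1, G.one_mem, Or.inl ⟨by
        rw [one_smul]; exact sim_ge hab, by rw [one_smul]; exact sim_refl _⟩⟩
    rw [sub_eq_add_neg, phi_add, phi_neg, phi_del hT hs q hac, phi_del hT hs q hbc, h1]
    omega
  · exact phi_zero T hs q
  · intro x y _ _ hx hy
    rw [phi_add, hx, hy, add_zero]
  · intro x _ hx
    rw [phi_neg, hx, neg_zero]

theorem match_arcs {ι : Type} [Fintype ι] {T : Fam ι} (hT : T.IsTri G) (hs : SimInv G e)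
    (L₁ L₂ : List (Cusp × Cusp)) (h1 : ∀ p ∈ L₁, T.E G p.1 p.2) (h2 : ∀ p ∈ L₂, T.E G p.1 p.2)
    (h : (L₁.map (fun p => T.del G p.1 p.2)).sum - (L₂.map (fun p => T.del G p.1 p.2)).sum ∈
      KerL G e T) :
    ((L₁ : Multiset (Cusp × Cusp)).map (Quotient.mk (slSetoid hs))) =
      (L₂ : Multiset (Cusp × Cusp)).map (Quotient.mk (slSetoid hs)) := by
  classical
  have key : ∀ (L : List (Cusp × Cusp)), (∀ p ∈ L, T.E G p.1 p.2) → ∀ q,
      phi T hs q (L.map (fun p => T.del G p.1 p.2)).sum =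
        ((L.map (Quotient.mk (slSetoid hs))).count q : ℤ) := by
    intro L
    induction L with
    | nil => intro _ q; simp [phi_zero]
    | cons p L ih =>
      intro hL q
      rw [List.map_cons, List.sum_cons, phi_add,
        ih (fun r hr => hL r (List.mem_cons_of_mem _ hr)),
        phi_del hT hs q (hL p List.mem_cons_self), List.map_cons, List.count_cons]
      by_cases h0 : Quotient.mk (slSetoid hs) (p.1, p.2) = q
      · rw [if_pos h0, if_pos (by rw [beq_iff_eq]; exact h0)]; push_cast; ring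
      · rw [if_neg h0, if_neg (by rw [beq_iff_eq]; exact h0)]; push_cast; ring
  ext q
  have h4 := phi_kerL hT hs q h
  rw [sub_eq_add_neg, phi_add, phi_neg, key L₁ h1, key L₂ h2] at h4
  rw [Multiset.map_coe, Multiset.map_coe, Multiset.coe_count, Multiset.coe_count]
  omega

theorem rel_of_quot (hs : SimInv G e) {A B : Multiset (Cusp × Cusp)}
    (h : A.map (Quotient.mk (slSetoid hs)) = B.map (Quotient.mk (slSetoid hs))) :
    Multiset.Rel (SlideArc G e) A B := by
  have h4 := Multiset.rel_eq.2 h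
  rw [Multiset.rel_map] at h4
  exact h4.mono fun a _ b _ hab => Quotient.exact (s := slSetoid hs) hab

/-! ## Loops -/

/-- Equal up to conjugation, sign and inversion. -/
def LEq (G : Subgroup SLZ) (h k : SLZ) : Prop :=
  ∃ g ∈ G, g * h * g⁻¹ = k ∨ g * h * g⁻¹ = -k ∨ g * h * g⁻¹ = k⁻¹ ∨ g * h * g⁻¹ = -k⁻¹

theorem neg_inv_slz (k : SLZ) : (-k)⁻¹ = -k⁻¹ := by
  rw [inv_eq_iff_mul_eq_one, neg_mul_neg, mul_inv_cancel]

theorem leq_symm {h k : SLZ} (H : LEq G h k) : LEq G k h := by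
  obtain ⟨g, hg, H⟩ := H
  refine ⟨g⁻¹, G.inv_mem hg, ?_⟩
  rcases H with H | H | H | H
  · left; rw [← H]; group
  · right; left
    have : k = -(g * h * g⁻¹) := by rw [H, neg_neg]
    rw [this, mul_neg, neg_mul]; congr 1; group
  · right; right; left
    have : k = (g * h * g⁻¹)⁻¹ := by rw [H, inv_inv]
    rw [this]; group
  · right; right; right
    have : k = -(g * h * g⁻¹)⁻¹ := by rw [H, neg_inv_slz, inv_inv, neg_neg]
    rw [this, mul_neg, neg_mul]; congr 1; group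

theorem leq_trans {h k l : SLZ} (H : LEq G h k) (H' : LEq G k l) : LEq G h l := by
  obtain ⟨g, hg, H⟩ := H
  obtain ⟨g', hg', H'⟩ := H'
  refine ⟨g' * g, G.mul_mem hg' hg, ?_⟩
  have e1 : g' * g * h * (g' * g)⁻¹ = g' * (g * h * g⁻¹) * g'⁻¹ := by group
  rw [e1]
  have e2 : g' * k⁻¹ * g'⁻¹ = (g' * k * g'⁻¹)⁻¹ := by group
  rcases H with H | H | H | H <;> rw [H] <;> rcases H' with H' | H' | H' | H' <;>
    simp only [mul_neg, neg_mul, e2, H', neg_inv_slz, inv_inv, neg_neg] <;> simp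

theorem shear_neg {ι : Type} [Fintype ι] {T : Fam ι} (hT : T.IsTri G) {h : SLZ} {m : ι → ℤ}
    (H : IsShear G T h m) : IsShear G T (-h) (-m) := by
  obtain ⟨α, β, h1, h2⟩ := H
  have hd := (PB.H14.del G ι inferInstance T hT).1
  refine ⟨β, α, ?_, ?_⟩
  · intro a b hab ha hb
    rw [side_neg] at ha hb
    rw [add_comm, hd, h1 b a (fe_symm hab) (by omega) (by omega)]
  · intro a b hab ha hb
    rw [side_neg] at ha hb
    obtain ⟨h3, h4⟩ := h2 b a (fe_symm hab) (by omega) (by omega)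
    rw [neg_smul', neg_smul', neg_neg]
    exact ⟨h4, h3⟩

theorem shear_conj {ι : Type} [Fintype ι] {T : Fam ι} (hT : T.IsTri G) {h g : SLZ} (hg : g ∈ G)
    {m : ι → ℤ} (H : IsShear G T h m) : IsShear G T (g * h * g⁻¹) m := by
  obtain ⟨α, β, h1, h2⟩ := H
  have hd := (PB.H14.del G ι inferInstance T hT).2.1
  have hs : ∀ a, side h (g⁻¹ • a) = side (g * h * g⁻¹) a := by
    intro a
    rw [← side_conj g h (g⁻¹ • a), smul_inv_smul]
  refine ⟨fun a => α (g⁻¹ • a), fun b => β (g⁻¹ • b), ?_, ?_⟩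
  · intro a b hab ha hb
    rw [← hs] at ha hb
    change α (g⁻¹ • a) + β (g⁻¹ • b) = _
    rw [h1 _ _ (fe_smul (G.inv_mem hg) hab) ha hb, hd _ (G.inv_mem hg)]
  · intro a b hab ha hb
    rw [← hs] at ha hb
    have := h2 _ _ (fe_smul (G.inv_mem hg) hab) ha hb
    change β (g⁻¹ • (g * h * g⁻¹) • b) - β (g⁻¹ • b) = m ∧
      α (g⁻¹ • (g * h * g⁻¹) • a) - α (g⁻¹ • a) = -m
    rw [← mul_smul, ← mul_smul]
    have e1 : g⁻¹ * (g * h * g⁻¹) = h * g⁻¹ := by group
    rw [e1, mul_smul, mul_smul]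
    exact this

theorem shear_inv {ι : Type} [Fintype ι] {T : Fam ι} (hT : T.IsTri G) {h : SLZ} (hh : h ∈ G)
    {m : ι → ℤ} (H : IsShear G T h m) : IsShear G T h⁻¹ m := by
  obtain ⟨α, β, h1, h2⟩ := H
  have hd := (PB.H14.del G ι inferInstance T hT).1
  refine ⟨β, α, ?_, ?_⟩
  · intro a b hab ha hb
    rw [side_inv] at ha hb
    rw [add_comm, hd, h1 b a (fe_symm hab) (by omega) (by omega)]
  · intro a b hab ha hb
    rw [side_inv] at ha hb
    have hsd : ∀ x, side h (h⁻¹ • x) = side h x := by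
      intro x
      rw [← side_smul_self h (h⁻¹ • x), smul_inv_smul]
    obtain ⟨h3, h4⟩ := h2 (h⁻¹ • b) (h⁻¹ • a) (fe_smul (G.inv_mem hh) (fe_symm hab))
      (by rw [hsd]; omega) (by rw [hsd]; omega)
    rw [smul_inv_smul] at h3 h4
    constructor
    · rw [← neg_sub, h4, neg_neg]
    · rw [← neg_sub, h3]

theorem shear_leq {ι : Type} [Fintype ι] {T : Fam ι} (hT : T.IsTri G) {h k : SLZ} (hh : h ∈ G)
    (hhk : LEq G h k) {m : ι → ℤ} (H : IsShear G T h m) :
    ∃ t : ℤ, (t = 1 ∨ t = -1) ∧ IsShear G T k (t • m) := by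
  obtain ⟨g, hg, H'⟩ := hhk
  have h1 := shear_conj hT hg H
  have h2 := shear_inv hT (G.mul_mem (G.mul_mem hg hh) (G.inv_mem hg)) h1
  rcases H' with H' | H' | H' | H'
  · exact ⟨1, Or.inl rfl, by rw [one_smul, ← H']; exact h1⟩
  · refine ⟨-1, Or.inr rfl, ?_⟩
    have : k = -(g * h * g⁻¹) := by rw [H', neg_neg]
    rw [neg_smul, one_smul, this]; exact shear_neg hT h1
  · refine ⟨1, Or.inl rfl, ?_⟩
    have : k = (g * h * g⁻¹)⁻¹ := by rw [H', inv_inv]
    rw [one_smul, this]; exact h2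
  · refine ⟨-1, Or.inr rfl, ?_⟩
    have : k = -(g * h * g⁻¹)⁻¹ := by rw [H', neg_inv_slz, inv_inv, neg_neg]
    rw [neg_smul, one_smul, this]; exact shear_neg hT h2

theorem rel_of_bij {α β : Type} {R : α → β → Prop} (A : List α) (B : List β)
    (f : Fin A.length ≃ Fin B.length) (h : ∀ l, R (A.get l) (B.get (f l))) :
    Multiset.Rel R (A : Multiset α) B := by
  have hA : (A : Multiset α) = (Finset.univ : Finset (Fin A.length)).val.map A.get := by
    rw [Fin.univ_val_map, List.ofFn_get]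
  have hB : (B : Multiset β) = (Finset.univ : Finset (Fin A.length)).val.map
      (fun l => B.get (f l)) := by
    have h1 : (B : Multiset β) = (Finset.univ : Finset (Fin B.length)).val.map B.get := by
      rw [Fin.univ_val_map, List.ofFn_get]
    rw [h1]
    have h2 : (Finset.univ : Finset (Fin B.length)).val =
        (Finset.univ : Finset (Fin A.length)).val.map f := by
      rw [← Finset.map_univ_equiv f]; rfl
    rw [h2, Multiset.map_map]; rfl
  rw [hA, hB, Multiset.rel_map]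
  exact Multiset.rel_refl_of_refl_on fun l _ => h l

end

end Pool.Agent.Lib.MP_eee7a8_ag.TB.C4
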