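import Pool.Agent.Lib.MP_eee7a8_ag.TB.C4.PpD

/-!
# TAGBR, PP: independence and matching of loops
-/

open Matrix

namespace Pool.Agent.Lib.MP_eee7a8_ag.TB.C4

open PB

section

variable {G : Subgroup SLZ} {e : Option (Cusp × Cusp)}

theorem indep_gen (hI : IndepStatement) (hG : IsSurface G) (he : Adm G e) {ι : Type} [Fintype ι]
    {T : Fam ι} (hT : Good G e T) {J : Type} [Fintype J] (h : J → SLZ)
    (h1 : ∀ j, IsLoop G (h j)) (h2 : ∀ i j, i ≠ j → DisjLoop G (h i) (h j))
    (h3 : ∀ j, NCL G e (h j)) (h4 : ∀ j, NonDeg G e (h j)) (m : J → ι → ℤ)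
    (h5 : ∀ j, IsShear G T (h j) (m j)) (c : J → ℤ) (h6 : (∑ j, c j • m j) ∈ KerL G e T) :
    c = 0 := by
  have hr := Fintype.equivFin J
  have := hI G hG e he ι T hT (Fintype.card J)
    ⟨fun i => h (hr.symm i), fun i => h1 _, fun i j hij => h2 _ _ fun h => hij (hr.symm.injective h),
      fun i => h3 _, fun i => h4 _⟩ (fun i => m (hr.symm i)) (fun i => h5 _)
    (fun i => c (hr.symm i)) (by
      rw [← Equiv.sum_comp hr.symm] at h6
      exact h6)
  ext j
  have h7 := congrFun this (hr j)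
  simpa using h7

/-- Families of weighted loops used in the proof of PP. -/
structure LP1 (G : Subgroup SLZ) (e : Option (Cusp × Cusp)) (A : List (SLZ × ℕ)) : Prop where
  loop : ∀ l ∈ A, IsLoop G l.1 ∧ 1 ≤ l.2
  ncl : ∀ l ∈ A, NCL G e l.1
  nd : ∀ l ∈ A, NonDeg G e l.1
  pw : A.Pairwise (fun l m => DisjLoop G l.1 m.1)

theorem LP1.disj {A : List (SLZ × ℕ)} (H : LP1 G e A) {i j : Fin A.length} (hij : i ≠ j) :
    DisjLoop G (A.get i).1 (A.get j).1 := by
  rcases lt_or_gt_of_ne hij with h | h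
  · exact List.pairwise_iff_get.1 H.pw i j h
  · exact disjLoop_symm (List.pairwise_iff_get.1 H.pw j i h)

theorem not_leq_of_disj {h k : SLZ} (H : DisjLoop G h k) : ¬ LEq G h k := by
  intro h0
  obtain ⟨g, hg, h1⟩ := leq_symm h0
  obtain ⟨_, h2, h3, h4, h5⟩ := H g hg
  tauto

theorem disj_of {h k : SLZ} (H : ∀ g ∈ G, ¬ AxesCross h (g * k * g⁻¹)) (H' : ¬ LEq G h k) :
    DisjLoop G h k := by
  intro g hg
  refine ⟨H g hg, ?_, ?_, ?_, ?_⟩ <;> intro h0 <;> apply H' <;> apply leq_symm <;>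
    refine ⟨g, hg, ?_⟩ <;> tauto

theorem signs_all_one (hI : IndepStatement) (hG : IsSurface G) (he : Adm G e) {ι : Type}
    [Fintype ι] {T : Fam ι} (hT : Good G e T) {A : List (SLZ × ℕ)} (hA : LP1 G e A)
    (m : Fin A.length → ι → ℤ) (hm : ∀ i, IsShear G T (A.get i).1 (m i))
    (s : Fin A.length → ℤ)
    (H : (∑ i, ((A.get i).2 : ℤ) • m i) - ∑ i, (s i * ((A.get i).2 : ℤ)) • m i ∈ KerL G e T) :
    ∀ i, s i = 1 := by
  have h6 : (∑ i, (((A.get i).2 : ℤ) - s i * ((A.get i).2 : ℤ)) • m i) ∈ KerL G e T := by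
    rw [← Finset.sum_sub_distrib] at H
    simpa only [sub_smul] using H
  have := indep_gen hI hG he hT (fun i => (A.get i).1) (fun i => (hA.loop _ (List.get_mem _ _)).1)
    (fun i j hij => hA.disj hij) (fun i => hA.ncl _ (List.get_mem _ _))
    (fun i => hA.nd _ (List.get_mem _ _)) m hm _ h6
  intro i
  have h7 := congrFun this i
  have h8 : 1 ≤ (A.get i).2 := (hA.loop _ (List.get_mem _ _)).2
  have h9 : ((A.get i).2 : ℤ) * (1 - s i) = 0 := by
    have : ((A.get i).2 : ℤ) - s i * ((A.get i).2 : ℤ) = 0 := h7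
    linear_combination this
  rcases mul_eq_zero.1 h9 with h | h
  · omega
  · omega

open Classical in
theorem match_loops (hI : IndepStatement) (hG : IsSurface G) (he : Adm G e) {ι : Type}
    [Fintype ι] {T : Fam ι} (hT : Good G e T) {A B : List (SLZ × ℕ)} (hA : LP1 G e A)
    (hB : LP1 G e B) (hAB : ∀ a ∈ A, ∀ b ∈ B, ∀ g ∈ G, ¬ AxesCross a.1 (g * b.1 * g⁻¹))
    (mA : Fin A.length → ι → ℤ) (hmA : ∀ i, IsShear G T (A.get i).1 (mA i))
    (mB : Fin B.length → ι → ℤ) (hmB : ∀ i, IsShear G T (B.get i).1 (mB i))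
    (hU : ∀ l ∈ B, ∀ m m', IsShear G T l.1 m → IsShear G T l.1 m' → m = m')
    (s : Fin B.length → ℤ) (hs : ∀ i, s i = 1 ∨ s i = -1)
    (H : (∑ i, ((A.get i).2 : ℤ) • mA i) - ∑ i, (s i * ((B.get i).2 : ℤ)) • mB i ∈ KerL G e T) :
    Multiset.Rel (SameLoop G) (B : Multiset (SLZ × ℕ)) A := by
  -- the index set of the union
  let J := Fin A.length ⊕ {l : Fin B.length // ∀ i, ¬ LEq G (A.get i).1 (B.get l).1}
  let hJ : J → SLZ := Sum.elim (fun i => (A.get i).1) (fun l => (B.get l.1).1)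
  let mJ : J → ι → ℤ := Sum.elim mA (fun l => mB l.1)
  -- for the other loops of B
  have hex : ∀ l : Fin B.length, ∃ (i : Option (Fin A.length)) (t : ℤ), (t = 1 ∨ t = -1) ∧
      (∀ i', i = some i' → LEq G (A.get i').1 (B.get l).1 ∧ mB l = t • mA i') ∧
      (i = none → ∀ i', ¬ LEq G (A.get i').1 (B.get l).1) := by
    intro l
    by_cases h : ∃ i', LEq G (A.get i').1 (B.get l).1
    · obtain ⟨i', hi'⟩ := h
      obtain ⟨t, ht, h1⟩ := shear_leq hT.toIsTri (hA.loop _ (List.get_mem A i')).1.mem hi' (hmA i')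
      refine ⟨some i', t, ht, ?_, ?_⟩
      · intro i'' h2
        rw [Option.some.injEq] at h2
        rw [← h2]
        exact ⟨hi', hU _ (List.get_mem _ _) _ _ (hmB l) h1⟩
      · intro h2; exact absurd h2 (by simp)
    · push Not at h
      exact ⟨none, 1, Or.inl rfl, fun i' h2 => absurd h2 (by simp), fun _ => h⟩
  choose f t ht hf1 hf2 using hex
  let c : J → ℤ := Sum.elim
    (fun i => ((A.get i).2 : ℤ) - ∑ l, if f l = some i then s l * ((B.get l).2 : ℤ) * t l else 0)
    (fun l => -(s l.1 * ((B.get l.1).2 : ℤ)))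
  have hsum : ∑ j, c j • mJ j =
      (∑ i, ((A.get i).2 : ℤ) • mA i) - ∑ i, (s i * ((B.get i).2 : ℤ)) • mB i := by
    rw [Fintype.sum_sum_type]
    simp only [c, mJ, Sum.elim_inl, Sum.elim_inr, sub_smul, Finset.sum_sub_distrib]
    rw [sub_add, sub_right_inj]
    simp only [neg_smul, Finset.sum_neg_distrib, sub_neg_eq_add]
    have e1 : ∀ l, (s l * ((B.get l).2 : ℤ)) • mB l =
        (∑ i, (if f l = some i then s l * ((B.get l).2 : ℤ) * t l else 0) • mA i) +
        (if ∀ i, ¬ LEq G (A.get i).1 (B.get l).1 then (s l * ((B.get l).2 : ℤ)) • mB l else 0) := by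
      intro l
      rcases hfl : f l with _ | i
      · rw [if_pos (hf2 l hfl)]
        simp
      · obtain ⟨h1, h2⟩ := hf1 l i hfl
        rw [if_neg (by push Not; exact ⟨i, h1⟩), add_zero, Finset.sum_eq_single i]
        · rw [if_pos rfl, h2, smul_smul]
        · intro j _ hj
          rw [if_neg (by rw [Option.some.injEq]; exact fun h => hj h.symm), zero_smul]
        · intro h; exact absurd (Finset.mem_univ i) h
    rw [Finset.sum_congr rfl fun l _ => e1 l, Finset.sum_add_distrib, Finset.sum_comm]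
    congr 1
    · refine Finset.sum_congr rfl fun i _ => ?_
      rw [Finset.sum_smul]
    · rw [← Finset.sum_filter]
      exact (Finset.sum_subtype _ (by simp) (fun l => (s l * ((B.get l).2 : ℤ)) • mB l)).symm
  have hdis : ∀ i j : J, i ≠ j → DisjLoop G (hJ i) (hJ j) := by
    rintro (i | ⟨i, hi⟩) (j | ⟨j, hj⟩) hij
    · exact hA.disj fun h => hij (by rw [h])
    · exact disj_of (hAB _ (List.get_mem _ _) _ (List.get_mem _ _)) (hj i)
    · exact disjLoop_symm (disj_of (hAB _ (List.get_mem _ _) _ (List.get_mem _ _)) (hi j))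
    · refine hB.disj fun h => hij ?_
      subst h; rfl
  have hc : c = 0 := by
    refine indep_gen hI hG he hT hJ ?_ hdis ?_ ?_ mJ ?_ c (by rw [hsum]; exact H)
    · rintro (i | ⟨i, hi⟩)
      · exact (hA.loop _ (List.get_mem _ _)).1
      · exact (hB.loop _ (List.get_mem _ _)).1
    · rintro (i | ⟨i, hi⟩)
      · exact hA.ncl _ (List.get_mem _ _)
      · exact hB.ncl _ (List.get_mem _ _)
    · rintro (i | ⟨i, hi⟩)
      · exact hA.nd _ (List.get_mem _ _)
      · exact hB.nd _ (List.get_mem _ _)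
    · rintro (i | ⟨i, hi⟩)
      · exact hmA i
      · exact hmB i
  -- all loops of B are equivalent to loops of A
  have hsome : ∀ l, ∃ i, f l = some i := by
    intro l
    rcases hfl : f l with _ | i
    · exfalso
      have h1 := congrFun hc (Sum.inr ⟨l, hf2 l hfl⟩)
      have h2 : -(s l * ((B.get l).2 : ℤ)) = 0 := h1
      have h3 : 1 ≤ (B.get l).2 := (hB.loop _ (List.get_mem _ _)).2
      rcases hs l with h | h <;> rw [h] at h2 <;> omega
    · exact ⟨i, rfl⟩
  choose F hF using hsome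
  have hFinj : Function.Injective F := by
    intro l l' h
    by_contra hne
    have h1 := (hf1 l _ (hF l)).1
    have h2 := (hf1 l' _ (hF l')).1
    rw [h] at h1
    exact not_leq_of_disj (hB.disj hne) (leq_trans (leq_symm h1) h2)
  have hFk : ∀ i, ∃ l, F l = i ∧ (B.get l).2 = (A.get i).2 := by
    intro i
    have h1 := congrFun hc (Sum.inl i)
    have h2 : ((A.get i).2 : ℤ) -
        ∑ l, (if f l = some i then s l * ((B.get l).2 : ℤ) * t l else 0) = 0 := h1
    have h3 : 1 ≤ (A.get i).2 := (hA.loop _ (List.get_mem _ _)).2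
    have h4 : ∃ l, F l = i := by
      by_contra h5
      push Not at h5
      rw [Finset.sum_eq_zero] at h2
      · omega
      · intro l _
        rw [if_neg]
        rw [hF l, Option.some.injEq]
        exact h5 l
    obtain ⟨l, hl⟩ := h4
    refine ⟨l, hl, ?_⟩
    rw [Finset.sum_eq_single l] at h2
    · rw [if_pos (by rw [hF l, hl])] at h2
      rcases hs l with h | h <;> rcases ht l with h' | h' <;> rw [h, h'] at h2 <;> omega
    · intro l' _ hl'
      rw [if_neg]
      rw [hF l', Option.some.injEq]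
      intro h5
      exact hl' (hFinj (h5.trans hl.symm))
    · intro h; exact absurd (Finset.mem_univ l) h
  have hFbij : Function.Bijective F := ⟨hFinj, fun i => by
    obtain ⟨l, hl, _⟩ := hFk i; exact ⟨l, hl⟩⟩
  refine rel_of_bij B A (Equiv.ofBijective F hFbij) ?_
  intro l
  obtain ⟨l', h1, h2⟩ := hFk (F l)
  have h3 := hFinj h1
  subst h3
  refine ⟨h2, ?_⟩
  obtain ⟨g, hg, h4⟩ := leq_symm (hf1 l' _ (hF l')).1
  exact ⟨g, hg, h4⟩

end

end Pool.Agent.Lib.MP_eee7a8_ag.TB.C4
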