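import Pool.Agent.Lib.MP_eee7a8_ag.TB.C4.PpE

/-!
# TAGBR, PP: the core argument
-/

open Matrix

namespace Pool.Agent.Lib.MP_eee7a8_ag.TB.C4

open PB

theorem forall₂_ofFn {α β : Type*} {R : α → β → Prop} {ms : List α} {l : List β}
    (h : List.Forall₂ R ms l) :
    ∃ μ : Fin l.length → α, (∀ i, R (μ i) (l.get i)) ∧ ms = List.ofFn μ := by
  have hl := h.length_eq
  refine ⟨fun i => ms.get (Fin.cast hl.symm i), ?_, ?_⟩
  · intro i
    exact h.get _ _
  · apply List.ext_get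
    · rw [List.length_ofFn]; exact hl
    · intro n h1 h2
      simp

theorem forall₂_comp {α β γ : Type*} {R : α → β → Prop} {S : γ → β → Prop} :
    ∀ {a : List α} {b : List β} {c : List γ}, List.Forall₂ R a b → List.Forall₂ S c b →
      List.Forall₂ (fun c a => ∃ b, R a b ∧ S c b) c a
  | _, _, _, .nil, .nil => .nil
  | _, _, _, .cons h1 h2, .cons h3 h4 => .cons ⟨_, h1, h3⟩ (forall₂_comp h2 h4)

section

variable {G : Subgroup SLZ} {e : Option (Cusp × Cusp)}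

/-- Hypotheses of the core argument: `T` is a triangulation adapted to `β₀`, `m` the shear vectors
of its loops. -/
structure Setup (G : Subgroup SLZ) (e : Option (Cusp × Cusp)) {ι : Type} [Fintype ι] (T : Fam ι)
    (β₀ β : Sys G) (m : Fin β₀.loops.length → ι → ℤ) : Prop where
  good : Good G e T
  es : EdgeSim G e T
  e0 : SysE G e β₀
  e1 : SysE G e β
  nd0 : ∀ l ∈ β₀.loops, NonDeg G e l.1
  nd1 : ∀ l ∈ β.loops, NonDeg G e l.1
  arcs : ∀ p ∈ β₀.arcs, T.E G p.1 p.2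
  shear : ∀ j, IsShear G T (β₀.loops.get j).1 (m j)
  q0 : ∀ j, 0 ≤ pair T (m j) (XB G e (QS β))
  q1 : ∀ j, (∃ p q, (QS β).E G p q ∧ side (β₀.loops.get j).1 p * side (β₀.loops.get j).1 q < 0) →
        0 < pair T (m j) (XB G e (QS β))
  l0 : ∀ j, ∀ l ∈ β.loops, 0 ≤ pair T (m j) (XL G l.1)
  l1 : ∀ j, ∀ l ∈ β.loops, (∃ g ∈ G, AxesCross (β₀.loops.get j).1 (g * l.1 * g⁻¹)) →
        0 < pair T (m j) (XL G l.1)

/-- The exponent. -/
noncomputable def EE (G : Subgroup SLZ) {ι : Type} [Fintype ι] (T : Fam ι) (β₀ : Sys G)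
    (m : Fin β₀.loops.length → ι → ℤ) : ι → ℤ :=
  (β₀.arcs.map (fun p => T.del G p.1 p.2)).sum + ∑ j, ((β₀.loops.get j).2 : ℤ) • m j

theorem rz_add {ι : Type} {T : Fam ι} {x y : ι → ℤ} (hx : Rz G e T x) (hy : Rz G e T y) :
    Rz G e T (x + y) := fun i hi => by rw [Pi.add_apply, hx i hi, hy i hi, add_zero]

theorem rz_list {ι : Type} {T : Fam ι} : ∀ {l : List (ι → ℤ)}, (∀ x ∈ l, Rz G e T x) →
    Rz G e T l.sum
  | [], _ => fun _ _ => rfl
  | x :: l, h => by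
    rw [List.sum_cons]
    exact rz_add (h x List.mem_cons_self) (rz_list fun y hy => h y (List.mem_cons_of_mem _ hy))

theorem rz_zsmul {ι : Type} {T : Fam ι} {x : ι → ℤ} (hx : Rz G e T x) (k : ℤ) :
    Rz G e T (k • x) := fun i hi => by rw [Pi.smul_apply, hx i hi, smul_zero]

theorem rz_sum {ι κ : Type} {T : Fam ι} (s : Finset κ) {f : κ → ι → ℤ}
    (h : ∀ j ∈ s, Rz G e T (f j)) : Rz G e T (∑ j ∈ s, f j) := by
  intro i hi
  rw [Finset.sum_apply]
  exact Finset.sum_eq_zero fun j hj => h j hj i hi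

theorem rz_del {ι : Type} [Fintype ι] {T : Fam ι} (hT : T.IsTri G) {a b : Cusp}
    (h : T.E G a b) (h' : ¬ Ge G e a b) : Rz G e T (T.del G a b) := by
  intro i hi
  by_contra h0
  exact h' (ge_same hi (del_ge hT h h0))

theorem rz_shear (hSh : ShearStatement) (hG : IsSurface G) {ι : Type} [Fintype ι] {T : Fam ι}
    (hT : T.IsTri G) {h : SLZ} (hl : IsLoop G h) (hn : NCL G e h) {m : ι → ℤ}
    (hm : IsShear G T h m) : Rz G e T m := by
  intro i hi
  by_contra h0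
  obtain ⟨a, b, h1, h2⟩ := (hSh G hG ι T hT h hl).2.2.1 m hm i h0
  have := hn a b (ge_same hi h1)
  omega

theorem rz_EE (hSh : ShearStatement) (hG : IsSurface G) {ι : Type} [Fintype ι] {T : Fam ι}
    {β₀ β : Sys G} {m : Fin β₀.loops.length → ι → ℤ} (S : Setup G e T β₀ β m) :
    Rz G e T (EE G T β₀ m) := by
  refine rz_add (rz_list ?_) (rz_sum _ fun j _ => rz_zsmul ?_ _)
  · intro x hx
    rw [List.mem_map] at hx
    obtain ⟨p, hp, rfl⟩ := hx
    exact rz_del S.good.toIsTri (S.arcs p hp) fun h => S.e0.ns p hp (sim_ge h)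
  · exact rz_shear hSh hG S.good.toIsTri (β₀.loop _ (List.get_mem _ _)).1
      (S.e0.ncl _ (List.get_mem _ _)) (S.shear j)

/-- The sum of nonpositive numbers is nonnegative: all vanish. -/
theorem all_zero {κ κ' : Type} [Fintype κ] [Fintype κ'] (f : κ → ℤ) (g : κ' → ℤ)
    (hf : ∀ i, f i ≤ 0) (hg : ∀ i, g i ≤ 0) (h : 0 ≤ ∑ i, f i + ∑ i, g i) :
    (∀ i, f i = 0) ∧ (∀ i, g i = 0) := by
  have h1 : ∑ i, f i ≤ 0 := Finset.sum_nonpos fun i _ => hf i
  have h2 : ∑ i, g i ≤ 0 := Finset.sum_nonpos fun i _ => hg i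
  have h3 : ∑ i, f i = 0 := by omega
  have h4 : ∑ i, g i = 0 := by omega
  constructor
  · intro i
    exact (Finset.sum_eq_zero_iff_of_nonpos fun i _ => hf i).1 h3 i (Finset.mem_univ i)
  · intro i
    exact (Finset.sum_eq_zero_iff_of_nonpos fun i _ => hg i).1 h4 i (Finset.mem_univ i)

end

end Pool.Agent.Lib.MP_eee7a8_ag.TB.C4
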