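import Pool.Agent.Lib.MP_eee7a8_ag.TB.C4.PpF

/-!
# TAGBR, PP: the core argument, continued
-/

open Matrix

namespace Pool.Agent.Lib.MP_eee7a8_ag.TB.C4

open PB

section

variable {G : Subgroup SLZ} {e : Option (Cusp × Cusp)}

theorem pair_EE {ι : Type} [Fintype ι] {T : Fam ι} {β₀ β : Sys G}
    {m : Fin β₀.loops.length → ι → ℤ} (S : Setup G e T β₀ β m) {X : Cusp → Cusp → ℤ}
    (hX : SuperT G e X) :
    pair T (EE G T β₀ m) X = (β₀.arcs.map (fun p => X p.1 p.2)).sum +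
      ∑ j, ((β₀.loops.get j).2 : ℤ) * pair T (m j) X := by
  unfold EE
  rw [pair_add, pair_list_sum, pair_finset_sum, List.map_map]
  congr 1
  · congr 1
    apply List.map_congr_left
    intro p hp
    exact pair_del S.good.toIsTri hX.symm hX.inv (S.arcs p hp)
  · exact Finset.sum_congr rfl fun j _ => pair_zsmul T X _ _

theorem list_sum_zero : ∀ {l : List ℤ}, (∀ x ∈ l, 0 ≤ x) → l.sum = 0 → ∀ x ∈ l, x = 0
  | [], _, _, x, hx => absurd hx (by simp)
  | a :: l, h, h0, x, hx => by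
    have h1 := h a List.mem_cons_self
    have h2 : 0 ≤ l.sum := List.sum_nonneg fun y hy => h y (List.mem_cons_of_mem _ hy)
    rw [List.sum_cons] at h0
    rcases List.mem_cons.1 hx with rfl | hx
    · omega
    · exact list_sum_zero (fun y hy => h y (List.mem_cons_of_mem _ hy)) (by omega) x hx

theorem core (hTool : ToolStatement) (hXb : XbSupStatement) (hXl : XlSupStatement)
    (hRec : RecbStatement) (hX1 : X1Statement) (hX1s : X1sStatement) (hX2 : X2Statement)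
    (hX2b : X2bStatement) (hShear : ShearStatement) (hTop : TopStatement)
    (hIndep : IndepStatement) (hF : FIN_S) (hG : IsSurface G) (he : Adm G e)
    {ι : Type} [Fintype ι] {T : Fam ι} {β₀ β : Sys G} {m : Fin β₀.loops.length → ι → ℤ}
    (S : Setup G e T β₀ β m) {P : Cusp → Cusp → LP ι} (hP : IsPol G T P)
    (μ : Fin β.arcs.length → ι → ℤ)
    (hμ : ∀ i, μ i ∈ (P (β.arcs.get i).1 (β.arcs.get i).2).coeff.support)
    (η : Fin β.loops.length → ι → ℤ)
    (hη : ∀ l, ∃ x, IsTrP G T P (β.loops.get l).1 (β.loops.get l).2 x ∧ η l ∈ x.coeff.support)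
    {ν : ι → ℤ} (hν : ν ∈ KerL G e T) (hsum : ∑ i, μ i + ∑ l, η l = EE G T β₀ m + ν)
    (m' : Fin β.loops.length → ι → ℤ) (hm' : ∀ l, IsShear G T (β.loops.get l).1 (m' l)) :
    Multiset.Rel (SlideArc G e) (β.arcs : Multiset (Cusp × Cusp)) β₀.arcs ∧
    (∀ a ∈ β₀.loops, ∀ b ∈ β.loops, ∀ g ∈ G, ¬ AxesCross a.1 (g * b.1 * g⁻¹)) ∧
    ∃ s : Fin β.loops.length → ℤ, (∀ l, s l = 1 ∨ s l = -1) ∧
      (∀ l, η l = (s l * ((β.loops.get l).2 : ℤ)) • m' l) ∧
      (∑ j, ((β₀.loops.get j).2 : ℤ) • m j) - ∑ l, (s l * ((β.loops.get l).2 : ℤ)) • m' l ∈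
        KerL G e T := by
  classical
  obtain ⟨tl1, tl2, tl3, tl4, tl5, tl6⟩ := hTool G hG e he
  have hsi : SimInv G e := tl1
  have hT := S.good
  have hTt := S.good.toIsTri
  -- the crossing functions
  have hX : SuperT G e (XB G e (QS β)) := (hXb G hG e he _ (QS β) (qs_adm S.e1)).1
  let Λ := LF β S.e1 S.nd1
  have hY : SuperT G e (XF G Λ) := xf_super Λ fun i => hXl G hG e he _ (Λ.loop i) (Λ.nc i)
  have hloop : ∀ l : Fin β.loops.length, IsLoop G (β.loops.get l).1 ∧ 1 ≤ (β.loops.get l).2 :=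
    fun l => β.loop _ (List.get_mem _ _)
  have hloop0 : ∀ l : Fin β₀.loops.length, IsLoop G (β₀.loops.get l).1 ∧ 1 ≤ (β₀.loops.get l).2 :=
    fun l => β₀.loop _ (List.get_mem _ _)
  have hX2Q : ∀ l : Fin β.loops.length, ∀ a b, side (β.loops.get l).1 a * side (β.loops.get l).1 b < 0 →
      ∀ k : ℤ, XB G e (QS β) a ((β.loops.get l).1 ^ k • b) ≤ XB G e (QS β) a b := by
    intro l
    refine (hX2b G hG e he).1 _ (QS β) (qs_adm S.e1) _ (hloop l).1
      (S.e1.ncl _ (List.get_mem _ _)) ?_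
    intro p q hpq
    obtain ⟨r, hr, g, hg, h1⟩ := qs_E.1 hpq
    have h2 := β.disj _ (List.get_mem β.loops l) r hr g hg
    rcases h1 with ⟨rfl, rfl⟩ | ⟨rfl, rfl⟩
    · exact h2
    · rw [mul_comm]; exact h2
  have hX2L : ∀ l : Fin β.loops.length, ∀ a b, side (β.loops.get l).1 a * side (β.loops.get l).1 b < 0 →
      ∀ k : ℤ, XF G Λ a ((β.loops.get l).1 ^ k • b) ≤ XF G Λ a b := by
    intro l
    refine (hX2b G hG e he).2 _ Λ _ (hloop l).1 ?_
    intro j g hg
    by_cases hlj : l = j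
    · subst hlj; exact (hloop l).1.simple g hg
    · exact (Λ.disj l j hlj g hg).1
  -- all parts vanish at e
  have hμ0 : ∀ i, ∀ j, Ge G e (T.s j) (T.t j) → 0 ≤ μ i j := fun i =>
    (hRec G hG e he ι T hT P hP).2.1 _ _ (S.e1.nc _ (List.get_mem _ _)) _ (hμ i)
  have hη0 : ∀ l, ∀ j, Ge G e (T.s j) (T.t j) → 0 ≤ η l j := by
    intro l
    obtain ⟨x, hx, hx'⟩ := hη l
    exact (hX2 G hG e he ι T hT P hP _ hX _ (hloop l).1 (S.e1.ncl _ (List.get_mem _ _))
      (hX2Q l) _ (hloop l).2 x hx).1 _ hx'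
  have hEν : Rz G e T (EE G T β₀ m + ν) := rz_add (rz_EE hShear hG S) (rz_kerL hT hν)
  have hRz : (∀ i, Rz G e T (μ i)) ∧ (∀ l, Rz G e T (η l)) := by
    have key : ∀ j, Ge G e (T.s j) (T.t j) → (∀ i, μ i j = 0) ∧ (∀ l, η l j = 0) := by
      intro j hj
      have h1 := congrFun hsum j
      rw [hEν j hj, Pi.add_apply, Finset.sum_apply, Finset.sum_apply] at h1
      have h2 := all_zero (fun i => -μ i j) (fun l => -η l j)
        (fun i => by have := hμ0 i j hj; omega) (fun l => by have := hη0 l j hj; omega)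
        (by rw [Finset.sum_neg_distrib, Finset.sum_neg_distrib]; omega)
      exact ⟨fun i => by have := h2.1 i; omega, fun l => by have := h2.2 l; omega⟩
    exact ⟨fun i j hj => (key j hj).1 i, fun l j hj => (key j hj).2 l⟩
  obtain ⟨hμz, hηz⟩ := hRz
  -- first pairing
  have hpμ : ∀ i, pair T (μ i) (XB G e (QS β)) ≤ 0 := by
    intro i
    have := hX1 G hG e he ι T hT P hP _ hX _ _ (S.e1.nc _ (List.get_mem β.arcs i))
      (S.e1.ns _ (List.get_mem β.arcs i)) _ (hμ i) (hμz i)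
    rwa [xb_zero (List.get_mem β.arcs i)] at this
  have hpη : ∀ l, pair T (η l) (XB G e (QS β)) ≤ 0 := by
    intro l
    obtain ⟨x, hx, hx'⟩ := hη l
    exact (hX2 G hG e he ι T hT P hP _ hX _ (hloop l).1 (S.e1.ncl _ (List.get_mem _ _))
      (hX2Q l) _ (hloop l).2 x hx).2 _ hx' (hηz l)
  have hE1 := pair_EE S hX
  have hnn1 : ∀ x ∈ β₀.arcs.map (fun p => XB G e (QS β) p.1 p.2), 0 ≤ x := by
    intro x hx
    rw [List.mem_map] at hx
    obtain ⟨p, _, rfl⟩ := hx
    exact hX.nonneg _ _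
  have hs1 : 0 ≤ (β₀.arcs.map (fun p => XB G e (QS β) p.1 p.2)).sum := List.sum_nonneg hnn1
  have hs2 : 0 ≤ ∑ j, ((β₀.loops.get j).2 : ℤ) * pair T (m j) (XB G e (QS β)) :=
    Finset.sum_nonneg fun j _ => mul_nonneg (by omega) (S.q0 j)
  have hpE : pair T (∑ i, μ i + ∑ l, η l) (XB G e (QS β)) =
      (β₀.arcs.map (fun p => XB G e (QS β) p.1 p.2)).sum +
      ∑ j, ((β₀.loops.get j).2 : ℤ) * pair T (m j) (XB G e (QS β)) := by
    rw [hsum, pair_add, hE1, pair_kerL hT S.es hX hν, add_zero]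
  rw [pair_add, pair_finset_sum, pair_finset_sum] at hpE
  obtain ⟨hz1, hz2⟩ := all_zero _ _ hpμ hpη (by omega)
  have hz3 : ∑ j, ((β₀.loops.get j).2 : ℤ) * pair T (m j) (XB G e (QS β)) = 0 := by
    rw [Finset.sum_eq_zero fun i _ => hz1 i, Finset.sum_eq_zero fun i _ => hz2 i] at hpE
    omega
  have hz4 : ∀ j, pair T (m j) (XB G e (QS β)) = 0 := by
    intro j
    have := (Finset.sum_eq_zero_iff_of_nonneg fun j _ => mul_nonneg (by omega) (S.q0 j)).1 hz3 j
      (Finset.mem_univ j)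
    rcases mul_eq_zero.1 this with h | h
    · have := (hloop0 j).2; omega
    · exact h
  have hnc1 : ∀ j p q, (QS β).E G p q →
      ¬ side (β₀.loops.get j).1 p * side (β₀.loops.get j).1 q < 0 := by
    intro j p q h1 h2
    have := S.q1 j ⟨p, q, h1, h2⟩
    have := hz4 j
    omega
  -- the arcs are slides of edges
  have hab : ∀ i, ∃ ab : Cusp × Cusp, Sim G e (β.arcs.get i).1 ab.1 ∧
      Sim G e (β.arcs.get i).2 ab.2 ∧ T.E G ab.1 ab.2 ∧ μ i - T.del G ab.1 ab.2 ∈ KerL G e T := by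
    intro i
    rcases hX1s G hG e he ι T hT P hP _ (QS β) (qs_adm S.e1) (β.arcs.get i).1 (β.arcs.get i).2
      (qs_E.2 ⟨_, List.get_mem β.arcs i, sameArc_refl _ _⟩) with ⟨a', b', h1, h2, h3, h4⟩ | h
    · exact ⟨(a', b'), h1, h2, h3, h4 _ (hμ i) (hμz i)⟩
    · exfalso
      have h1 := h _ (hμ i) (hμz i)
      rw [xb_zero (List.get_mem β.arcs i)] at h1
      have := hz1 i
      omega
  choose ab hab1 hab2 hab3 hab4 using hab
  -- second pairing
  have hqμ : ∀ i, pair T (μ i) (XF G Λ) ≤ 0 := by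
    intro i
    have h1 := hX1 G hG e he ι T hT P hP _ hY _ _ (S.e1.nc _ (List.get_mem β.arcs i))
      (S.e1.ns _ (List.get_mem β.arcs i)) _ (hμ i) (hμz i)
    have h2 : XF G Λ (β.arcs.get i).1 (β.arcs.get i).2 = 0 := by
      unfold XF
      refine Finset.sum_eq_zero fun l _ => xl_zero fun g hg => ?_
      exact β.disj _ (List.get_mem β.loops l) _ (List.get_mem β.arcs i) g hg
    rwa [h2] at h1
  have hqη : ∀ l, pair T (η l) (XF G Λ) ≤ 0 := by
    intro l
    obtain ⟨x, hx, hx'⟩ := hη l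
    exact (hX2 G hG e he ι T hT P hP _ hY _ (hloop l).1 (S.e1.ncl _ (List.get_mem _ _))
      (hX2L l) _ (hloop l).2 x hx).2 _ hx' (hηz l)
  have hE2 := pair_EE S hY
  have hnn2 : ∀ x ∈ β₀.arcs.map (fun p => XF G Λ p.1 p.2), 0 ≤ x := by
    intro x hx
    rw [List.mem_map] at hx
    obtain ⟨p, _, rfl⟩ := hx
    exact hY.nonneg _ _
  have hs3 : 0 ≤ (β₀.arcs.map (fun p => XF G Λ p.1 p.2)).sum := List.sum_nonneg hnn2
  have hmF : ∀ j, pair T (m j) (XF G Λ) = ∑ l, pair T (m j) (XL G (Λ.h l)) := fun j =>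
    pair_sum_right T Finset.univ (fun l => XL G (Λ.h l)) (m j)
  have hmF0 : ∀ j, 0 ≤ pair T (m j) (XF G Λ) := fun j => by
    rw [hmF]
    exact Finset.sum_nonneg fun l _ => S.l0 j _ (List.get_mem β.loops l)
  have hs4 : 0 ≤ ∑ j, ((β₀.loops.get j).2 : ℤ) * pair T (m j) (XF G Λ) :=
    Finset.sum_nonneg fun j _ => mul_nonneg (by omega) (hmF0 j)
  have hqE : pair T (∑ i, μ i + ∑ l, η l) (XF G Λ) =
      (β₀.arcs.map (fun p => XF G Λ p.1 p.2)).sum +
      ∑ j, ((β₀.loops.get j).2 : ℤ) * pair T (m j) (XF G Λ) := by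
    rw [hsum, pair_add, hE2, pair_kerL hT S.es hY hν, add_zero]
  rw [pair_add, pair_finset_sum, pair_finset_sum] at hqE
  obtain ⟨hy1, hy2⟩ := all_zero _ _ hqμ hqη (by omega)
  rw [Finset.sum_eq_zero fun i _ => hy1 i, Finset.sum_eq_zero fun i _ => hy2 i] at hqE
  have hy3 : ∑ j, ((β₀.loops.get j).2 : ℤ) * pair T (m j) (XF G Λ) = 0 := by omega
  have hy5 : (β₀.arcs.map (fun p => XF G Λ p.1 p.2)).sum = 0 := by omega
  have hy4 : ∀ j, pair T (m j) (XF G Λ) = 0 := by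
    intro j
    have := (Finset.sum_eq_zero_iff_of_nonneg fun j _ => mul_nonneg (by omega) (hmF0 j)).1 hy3 j
      (Finset.mem_univ j)
    rcases mul_eq_zero.1 this with h | h
    · have := (hloop0 j).2; omega
    · exact h
  have hnc2 : ∀ a ∈ β₀.loops, ∀ b ∈ β.loops, ∀ g ∈ G, ¬ AxesCross a.1 (g * b.1 * g⁻¹) := by
    intro a ha b hb g hg hcr
    obtain ⟨j, rfl⟩ := List.get_of_mem ha
    obtain ⟨l, rfl⟩ := List.get_of_mem hb
    have h1 := S.l1 j _ (List.get_mem β.loops l) ⟨g, hg, hcr⟩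
    have h2 := hy4 j
    rw [hmF] at h2
    have h3 := (Finset.sum_eq_zero_iff_of_nonneg fun l _ =>
      S.l0 j _ (List.get_mem β.loops l)).1 h2 l (Finset.mem_univ l)
    have h4 : pair T (m j) (XL G (β.loops.get l).1) = 0 := h3
    omega
  have hnc3 : ∀ p ∈ β₀.arcs, ∀ l : Fin β.loops.length, ∀ g ∈ G,
      ¬ side (β.loops.get l).1 (g • p.1) * side (β.loops.get l).1 (g • p.2) < 0 := by
    intro p hp l
    have h1 : XF G Λ p.1 p.2 = 0 :=
      list_sum_zero hnn2 hy5 _ (List.mem_map.2 ⟨p, hp, rfl⟩)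
    have h2 := (Finset.sum_eq_zero_iff_of_nonneg fun l _ =>
      (hXl G hG e he _ (Λ.loop l) (Λ.nc l)).nonneg p.1 p.2).1 h1 l (Finset.mem_univ l)
    exact xl_pos hF (hloop l).1.hyp h2
  -- the loops
  have hm'0 : ∀ l, m' l ≠ 0 := by
    intro l h0
    have h1 := indep_gen hIndep hG he hT (J := Unit) (fun _ => (β.loops.get l).1)
      (fun _ => (hloop l).1) (fun i j h => absurd (Subsingleton.elim i j) h)
      (fun _ => S.e1.ncl _ (List.get_mem _ _)) (fun _ => S.nd1 _ (List.get_mem _ _))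
      (fun _ => m' l) (fun _ => hm' l) (fun _ => 1) (by
        rw [h0]; simp)
    have h2 := congrFun h1 ()
    exact absurd h2 (by norm_num)
  have hηk : ∀ l, ∃ s : ℤ, (s = 1 ∨ s = -1) ∧
      η l = (s * ((β.loops.get l).2 : ℤ)) • m' l := by
    intro l
    obtain ⟨x, hx, hx'⟩ := hη l
    have h1 := (hTop G hG e he ι T hT P hP _ Λ l (m' l) (hm' l) (hm'0 l) _ (hloop l).2 x hx).2.2.2.2
      _ hx' (hηz l) (by have := hy2 l; omega)
    rcases h1 with h1 | h1
    · exact ⟨1, Or.inl rfl, by rw [one_mul]; exact h1⟩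
    · exact ⟨-1, Or.inr rfl, by rw [h1, neg_mul, one_mul, neg_smul]⟩
  choose s hs hηs using hηk
  -- the relation
  let x₁ : ι → ℤ := (β₀.arcs.map (fun p => T.del G p.1 p.2)).sum -
    ((List.ofFn ab).map (fun p => T.del G p.1 p.2)).sum
  let x₂ : ι → ℤ := (∑ j, ((β₀.loops.get j).2 : ℤ) • m j) -
    ∑ l, (s l * ((β.loops.get l).2 : ℤ)) • m' l
  have hx12 : x₁ + x₂ ∈ KerL G e T := by
    have h1 : x₁ + x₂ = -ν + ∑ i, (μ i - T.del G (ab i).1 (ab i).2) := by
      have h2 : ((List.ofFn ab).map (fun p => T.del G p.1 p.2)).sum =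
          ∑ i, T.del G (ab i).1 (ab i).2 := by
        rw [List.map_ofFn, List.sum_ofFn]; rfl
      have h3 : ∑ l, (s l * ((β.loops.get l).2 : ℤ)) • m' l = ∑ l, η l :=
        Finset.sum_congr rfl fun l _ => (hηs l).symm
      rw [Finset.sum_sub_distrib]
      simp only [x₁, x₂, h2, h3]
      have h4 := hsum
      unfold EE at h4
      have h5 : ∑ i, μ i = (β₀.arcs.map (fun p => T.del G p.1 p.2)).sum +
        ∑ j, ((β₀.loops.get j).2 : ℤ) • m j + ν - ∑ l, η l := by rw [← h4]; abel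
      rw [h5]; abel
    rw [h1]
    exact add_mem (neg_mem hν) (sum_mem fun i _ => hab4 i)
  let H : Set SLZ := {h | (∃ j, h = (β₀.loops.get j).1) ∨ (∃ l, h = (β.loops.get l).1)}
  have hHn : ∀ h ∈ H, NCL G e h := by
    rintro h (⟨j, rfl⟩ | ⟨l, rfl⟩)
    · exact S.e0.ncl _ (List.get_mem _ _)
    · exact S.e1.ncl _ (List.get_mem _ _)
  let A : ι → Prop := fun i => Crossed G H (T.s i) (T.t i)
  have hA : ∀ a b c, Ge G e a b → T.E G a c → T.E G b c → ∀ i j,
      SameArc G (T.s i) (T.t i) a c → SameArc G (T.s j) (T.t j) b c → (A i ↔ A j) := by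
    intro a b c hab _ _ i j hi hj
    have h1 : A i ↔ Crossed G H a c := crossed_same hi
    have h2 : A j ↔ Crossed G H b c := crossed_same hj
    rw [h1, h2]
    exact ⟨crossed_ge hHn hab, crossed_ge hHn (ge_symm hab)⟩
  have hdelA : ∀ a b, T.E G a b → ¬ Crossed G H a b → ∀ i, T.del G a b i ≠ 0 → ¬ A i := by
    intro a b h1 h2 i hi hAi
    exact h2 ((crossed_same (del_ge hTt h1 hi)).1 hAi)
  have hside_ne : ∀ h, IsLoop G h → ∀ a, side h a ≠ 0 := fun h hl a => side_ne_zero hl.hyp a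
  have hx1A : ∀ i, x₁ i ≠ 0 → ¬ A i := by
    intro i hi hAi
    apply hi
    have hl : ∀ (l : List (Cusp × Cusp)), (∀ p ∈ l, T.E G p.1 p.2 ∧ ¬ Crossed G H p.1 p.2) →
        (l.map (fun p => T.del G p.1 p.2)).sum i = 0 := by
      intro l
      induction l with
      | nil => intro _; rfl
      | cons p l ih =>
        intro hl
        rw [List.map_cons, List.sum_cons, Pi.add_apply,
          ih fun q hq => hl q (List.mem_cons_of_mem _ hq), add_zero]
        by_contra h0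
        obtain ⟨h1, h2⟩ := hl p List.mem_cons_self
        exact hdelA _ _ h1 h2 i h0 hAi
    change (β₀.arcs.map (fun p => T.del G p.1 p.2)).sum i -
      ((List.ofFn ab).map (fun p => T.del G p.1 p.2)).sum i = 0
    rw [hl, hl, sub_zero]
    · intro p hp
      rw [List.mem_ofFn] at hp
      obtain ⟨k, rfl⟩ := hp
      refine ⟨hab3 k, ?_⟩
      rintro ⟨h, hh, g, hg, h1⟩
      have h2 := tl5 h (hHn h hh) _ _ (tl1 g hg _ _ (hab1 k))
      have h3 := tl5 h (hHn h hh) _ _ (tl1 g hg _ _ (hab2 k))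
      have hk : ¬ side h (g • (β.arcs.get k).1) * side h (g • (β.arcs.get k).2) < 0 := by
        rcases hh with ⟨j, rfl⟩ | ⟨l, rfl⟩
        · exact hnc1 j _ _ (qs_E.2 ⟨_, List.get_mem β.arcs k, sameArc_smul hg _ _⟩)
        · exact not_lt.2 (β.disj _ (List.get_mem β.loops l) _ (List.get_mem β.arcs k) g hg).le
      have hne : ∀ a, side h a ≠ 0 := by
        rcases hh with ⟨j, rfl⟩ | ⟨l, rfl⟩
        · exact hside_ne _ (hloop0 j).1
        · exact hside_ne _ (hloop l).1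
      have h4 := h2 hne
      have h5 := h3 hne
      apply hk
      rcases mul_neg_iff.1 h1 with ⟨h6, h7⟩ | ⟨h6, h7⟩ <;>
        rcases mul_pos_iff.1 h4 with ⟨h8, h9⟩ | ⟨h8, h9⟩ <;>
        rcases mul_pos_iff.1 h5 with ⟨h10, h11⟩ | ⟨h10, h11⟩ <;> first
          | omega
          | exact mul_neg_of_pos_of_neg h8 h10
          | exact mul_neg_of_neg_of_pos h8 h10
    · intro p hp
      refine ⟨S.arcs p hp, ?_⟩
      rintro ⟨h, ⟨j, rfl⟩ | ⟨l, rfl⟩, g, hg, h1⟩
      · have := β₀.disj _ (List.get_mem β₀.loops j) p hp g hg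
        omega
      · exact hnc3 p hp l g hg h1
  have hx2A : ∀ i, x₂ i ≠ 0 → A i := by
    intro i hi
    by_contra hAi
    apply hi
    have h1 : ∀ h ∈ H, IsLoop G h → ∀ m, IsShear G T h m → m i = 0 := by
      intro h hh hl m hm
      by_contra h0
      obtain ⟨a, b, h2, h3⟩ := (hShear G hG ι T hTt h hl).2.2.1 m hm i h0
      apply hAi
      refine (crossed_same h2).2 ⟨h, hh, 1, G.one_mem, ?_⟩
      rw [one_smul, one_smul]; exact h3
    change (∑ j, ((β₀.loops.get j).2 : ℤ) • m j) i -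
      (∑ l, (s l * ((β.loops.get l).2 : ℤ)) • m' l) i = 0
    rw [Finset.sum_apply, Finset.sum_apply, Finset.sum_eq_zero, Finset.sum_eq_zero, sub_zero]
    · intro l _
      rw [Pi.smul_apply, h1 _ (Or.inr ⟨l, rfl⟩) (hloop l).1 _ (hm' l), smul_zero]
    · intro j _
      rw [Pi.smul_apply, h1 _ (Or.inl ⟨j, rfl⟩) (hloop0 j).1 _ (S.shear j), smul_zero]
  have hk2 : x₂ ∈ KerL G e T := by
    have := res_kerL hT hA hx12
    rw [res_add, res_none hx1A, res_self hx2A, zero_add] at this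
    exact this
  have hk1 : x₁ ∈ KerL G e T := by
    have := sub_mem hx12 hk2
    rwa [add_sub_cancel_right] at this
  refine ⟨?_, hnc2, s, hs, hηs, hk2⟩
  -- matching of the arcs
  apply rel_of_quot hsi
  have h1 := match_arcs hTt hsi β₀.arcs (List.ofFn ab) S.arcs (by
    intro p hp
    rw [List.mem_ofFn] at hp
    obtain ⟨k, rfl⟩ := hp
    exact hab3 k) hk1
  rw [h1]
  have h2 : (β.arcs : Multiset (Cusp × Cusp)) =
      ((List.ofFn fun i => β.arcs.get i) : Multiset (Cusp × Cusp)) := by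
    rw [List.ofFn_get]
  rw [h2, Multiset.map_coe, Multiset.map_coe, List.map_ofFn, List.map_ofFn]
  congr 2
  ext i
  exact Quotient.sound (s := slSetoid hsi) ⟨1, G.one_mem, Or.inl ⟨by
    rw [one_smul]; exact hab1 i, by rw [one_smul]; exact hab2 i⟩⟩

end

end Pool.Agent.Lib.MP_eee7a8_ag.TB.C4
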